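import Pool.Agent.Helper74.CO.Defs

/-!
# Project CO (MP_c5396e_co): isolation of the algebraic Costas arrays. Goals

Every goal is a `Prop`; the proof is in its docstring; the names in brackets are the goals which may
be used as hypotheses. Notation in the docstrings: `q = |F|`, `e(t) = exp(2πit)`.
-/

set_option autoImplicit false

namespace Pool.Agent.Helper74.CO

open Finset

/-! ## Part A. Fejér weights and the three counting lemmas (pure analysis) -/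

/-- **FEJ** PROOF. `|∑_{j<K} e(jt)| ≤ K` gives `0 ≤ fw ≤ 1` (for `K = 0` it is `0`). `e(j(t+n)) = e(jt)`.
Tail: geometric sum, `|∑_{j<K} e(jt)| = |e(Kt) - 1|/|e(t) - 1| ≤ 2/(2|sin πt|)` and
`|sin πt| ≥ 2 min(|t|, 1-|t|) ≥ 2r` (`Real.mul_le_sin`), so the sum is at most `1/(2r)`.
Near `0`: for `j < K`, `|jt| ≤ 1/6`, so the real part of `e(jt)` is `cos 2πjt ≥ cos(π/3) = 1/2`; so
the norm of the sum is at least `K/2`. -/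
def FEJ : Prop :=
  (∀ (K : ℕ) (t : ℝ), 0 ≤ fw K t ∧ fw K t ≤ 1) ∧
  (∀ (K : ℕ) (t : ℝ) (n : ℤ), fw K (t + n) = fw K t) ∧
  (∀ (K : ℕ) (r t : ℝ), 1 ≤ K → 0 < r → r ≤ |t| → |t| ≤ 1 - r →
    fw K t ≤ 1 / (2 * K * r) ^ 2) ∧
  (∀ (K : ℕ) (t : ℝ), 1 ≤ K → |t| ≤ 1 / (6 * K) → 1 / 4 ≤ fw K t) ∧
  (∀ t : ℝ, fw 1 t = 1)

/-- **AVG** PROOF. `fw K (t - t₀) = K⁻² ∑_{j,j'<K} e((j-j')(t-t₀))` (norm squared of a finite sum).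
The product of the three weights is
`(Ka Kb Kc)⁻² ∑_{j,j',k,k',l,l'} (unimodular constant) e((j-j') a + (k-k') b + (l-l') c)`. Sum over `x`.
The terms with `j = j'`, `k = k'`, `l = l'` (there are `Ka Kb Kc`, the constant is `1`) give
`#X/(Ka Kb Kc)`; each other term is at most `κ #X` in norm and there are at most `(Ka Kb Kc)²`. -/
def AVG : Prop := ∀ (ι : Type) (X : Finset ι) (a b c : ι → ℝ) (Ka Kb Kc : ℕ) (κ a₀ b₀ c₀ : ℝ),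
  1 ≤ Ka → 1 ≤ Kb → 1 ≤ Kc → 0 ≤ κ →
  (∀ j k l : ℤ, |j| < Ka → |k| < Kb → |l| < Kc → ¬ (j = 0 ∧ k = 0 ∧ l = 0) →
    ‖∑ x ∈ X, ex (j * a x + k * b x + l * c x)‖ ≤ κ * #X) →
  |∑ x ∈ X, fw Ka (a x - a₀) * fw Kb (b x - b₀) * fw Kc (c x - c₀) -
    (#X : ℝ) / (Ka * Kb * Kc)| ≤ κ * #X

/-- **BUMP1** [FEJ, AVG] PROOF. Put `K₁ = 200`, `τ₁ = 25/K₁²`, `K₂ = 24 K₁²`, `ε = 1/(18 K₂)`,
`K₃` an integer `≥ K₂` with `K₃ ≥ 2 K₁²/ε²`, `τ₃ = 1/(2 K₃ ε)² ≤ 1/(8 K₁² K₃)`, `K = K₃`,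
`κ = 1/(64 K₁² K₃)`, `η = 1/(8 K₁² K₃)`. Let `a₀ = b₀ = (u + 1/2)/2 ∈ [1/10, 9/10]` and
`c₀ = max ε (min v (1-ε))`, so `|c₀ - v| ≤ 2ε`, `c₀ ∈ [ε, 1-ε]`. For `x ∈ X` write
`α = fw K₁ (a x - a₀)`, `β = fw K₁ (b x - b₀)`, `γ = fw K₃ (c x - c₀)`, `δ = fw K₂ (d x)`. Claim:
`γ (α β - τ₁ α - τ₁ β - 4 δ) ≤ 1_{x in the filter} + τ₃`. (All weights are in `[0,1]`, so the left side is at
most `1`.) If `|a x - a₀| ≥ 1/10` then, as also `|a x - a₀| ≤ 9/10`, `α ≤ τ₁` (FEJ tail) and the bracket is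
`≤ 0`; same for `b`. If both are `< 1/10` then `|a x + b x - u - 1/2| < 1/5`, the first condition
holds. If `|c x - c₀| ≥ ε` then it is also `≤ 1 - ε` and `γ ≤ τ₃`, bracket `≤ 1`. If `|c x - c₀| < ε` then
`|c x - v| < 3ε`; if the second condition fails then `d x < 3ε` or `d x > 1 - 3ε`, and as
`3ε ≤ 1/(6 K₂)`, `δ ≥ 1/4` (near `0`, and periodicity), so the bracket is `≤ 1 - 1 = 0`. Sum over `x`,
AVG (for sums of two weights take the third `K = 1`, `fw 1 = 1`; for `γ δ` use `Eq2`):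
`∑ γαβ ≥ #X (1/(K₁²K₃) - κ)`, `∑ γα ≤ #X (1/(K₁K₃) + κ)`, same for `β`,
`∑ γδ ≤ #X (1/(K₂K₃) + κ)`. So the filter has at least
`#X/(K₁²K₃) · (1 - 2·25/K₁ - 4/24 - 1/8) - 7κ #X ≥ #X/(4 K₁²K₃) - 7κ#X ≥ η #X` elements. -/
def BUMP1 : Prop := ∃ (K : ℕ) (κ η ε : ℝ), 0 < κ ∧ 0 < η ∧ 0 < ε ∧ Bump1 K κ η ε

/-- **BUMP2** [FEJ, AVG] PROOF. As BUMP1 without `a`, `b`: `K₂ = 24`, `ε = 1/(18 K₂)`,
`K₃ ≥ 2/ε²`, `γ (1 - 4δ) ≤ 1_{filter} + τ₃`, `τ₃ = 1/(2K₃ε)² ≤ 1/(8K₃)`,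
`∑ γ (1 - 4δ) ≥ #X/K₃ (1 - 4/24) - 5κ#X`; `κ = 1/(64 K₃)`, `η = 1/(8 K₃)`, `K = K₃`. -/
def BUMP2 : Prop := ∃ (K : ℕ) (κ η ε : ℝ), 0 < κ ∧ 0 < η ∧ 0 < ε ∧ Bump2 K κ η ε

/-- **BUMP3** [FEJ, AVG] PROOF. `K = 40`, `a₀ = 1/4` if `u = 0` and `3/4` if `u = 1`, `c₀` in the same
way from `v`. If `|a x - a₀| < 1/5` and `|c x - c₀| < 1/5` then `x` is in the filter (`2a x - u` is within
`2/5` of `1/2`). If `|a x - a₀| ≥ 1/5` then it is `≤ 3/4 ≤ 4/5` and the weight is `≤ τ = 1/(2K/5)² = 1/256`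
(FEJ tail, `r = 1/5`). So `α γ ≤ 1_{filter} + τ (α + γ)`, and the filter has at least
`#X (1/K² - 2τ/K) - κ #X (1 + 2τ)` elements; `1/1600 - 2/(256·40) = 1/1600 - 1/5120 > 1/2400`. Take
`κ = 1/10000`, `η = 1/10000`. -/
def BUMP3 : Prop := ∃ (K : ℕ) (κ η : ℝ), 0 < κ ∧ 0 < η ∧ Bump3 K κ η

/-- **BUMPS** [BUMP1, BUMP2, BUMP3] common constants. PROOF. `Bump1`, `Bump2`, `Bump3` are monotone:
larger `K`, smaller `κ`, `η`, `ε`. Take the maximum and the minima. -/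
def BUMPS : Prop := ∃ (K : ℕ) (κ η ε : ℝ), 0 < κ ∧ 0 < η ∧ 0 < ε ∧ ε < 1 ∧ Bump1 K κ η ε ∧
  Bump2 K κ η ε ∧ Bump3 K κ η

/-- **LIM** PROOF. Take `q₀` with `4 q^(3/4) + 5 ≤ κ (q - 5)` for `q ≥ q₀` (`x ≤ 4 √(q √q)`). For instance
`q₀ ≥ 10`, `q - 5 ≥ q/2`, `5 ≤ κq/4` and `4 q^(3/4) ≤ κ q/4` if `√√q ≥ 16/κ`. -/
def LIM : Prop := ∀ κ : ℝ, 0 < κ → ∃ q₀ : ℕ, ∀ q : ℕ, q₀ ≤ q → ∀ x : ℝ, 0 ≤ x →
  x ^ 2 ≤ 16 * q * √q → x + 5 ≤ κ * (q - 5)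

/-- **HM** (Halász–Montgomery) PROOF. Choose `c i` of norm one (`i ∈ R`) with
`c i * ∑ x, f x * φ i x = ‖…‖`. Then `#R κ q ≤ ∑_x f x (∑_i c i φ i x)`, so by Cauchy–Schwarz
`(#R κ q)² ≤ q ∑_x ‖∑_i c i φ i x‖² ≤ q ∑_{i,i'} ‖∑_x φ i x conj(φ i' x)‖ ≤ q (#R (2q + #R ε q))`
(for every `i` the terms `i' = i` and `i' = i₀` are at most `q`). Divide by `q² #R`. -/
def HM : Prop := ∀ (F ι : Type) [Fintype F] [Nonempty F] (R : Finset ι) (f : F → ℂ)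
  (φ : ι → F → ℂ) (κ ε : ℝ), 0 ≤ κ → 0 ≤ ε → (∀ x, ‖f x‖ ≤ 1) → (∀ i ∈ R, ∀ x, ‖φ i x‖ ≤ 1) →
  (∀ i ∈ R, κ * Fintype.card F ≤ ‖∑ x, f x * φ i x‖) →
  (∀ i ∈ R, ∃ i₀ : ι, ∀ i' ∈ R, i' ≠ i → i' ≠ i₀ →
    ‖∑ x, φ i x * (starRingEnd ℂ) (φ i' x)‖ ≤ ε * Fintype.card F) →
  (#R : ℝ) * κ ^ 2 ≤ 2 + #R * ε

/-! ## Part S. Character sums over finite fields, elementary bounds -/

section
variable (F : Type) [Field F] [Fintype F] [DecidableEq F]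

/-- **CSR** PROOF. `‖∑ χ h‖² = ∑_{x,x'≠0} χ x conj(χ x') h x conj(h x')` (`χ 0 = 0`); put `x' = r x`,
`r ≠ 0`: `χ x conj(χ (r x)) = conj (χ r)` because `|χ x| = 1`. So it is
`∑_{r≠0} conj(χ r) ∑_{x≠0} h x conj(h (r x))`; triangle inequality. -/
def CSR : Prop := ∀ (χ : MulChar F ℂ) (h : F → ℂ),
  ‖∑ x, χ x * h x‖ ^ 2 ≤
    ∑ r ∈ univ.erase (0 : F), ‖∑ x ∈ univ.erase (0 : F), h x * (starRingEnd ℂ) (h (r * x))‖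

/-- **GEN** [CSR] PROOF. In CSR the `r ∈ E` contribute at most `3q`; the others at most
`∑ (T (A r) + 2) ≤ 2q + √q √(∑_r T (A r)²) ≤ 2q + √q √(2 ∑_z T z²) ≤ 2q + √2 q √q` by Cauchy–Schwarz and since
every `z` is taken at most twice. `5q + √2 q√q ≤ 7q√q`. -/
def GEN : Prop := ∀ (χ : MulChar F ℂ) (h : F → ℂ) (E : Finset F) (A : F → F) (T : F → ℝ),
  (∀ x, ‖h x‖ ≤ 1) → #E ≤ 3 → (∀ z, 0 ≤ T z) → ∑ z, T z ^ 2 ≤ (Fintype.card F : ℝ) ^ 2 →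
  (∀ z, #((univ.erase (0 : F)).filter (fun r => r ∉ E ∧ A r = z)) ≤ 2) →
  (∀ r, r ≠ 0 → r ∉ E →
    ‖∑ x ∈ univ.erase (0 : F), h x * (starRingEnd ℂ) (h (r * x))‖ ≤ T (A r) + 2) →
  ‖∑ x, χ x * h x‖ ^ 2 ≤ 7 * Fintype.card F * √(Fintype.card F)

/-- **ORT** PROOF. `w = w'`: the terms are `1` except for `z = w` (`0`). `w ≠ w'`: for `z ≠ w'` the term is
`χ ((w - z)/(w' - z))` (`conj (χ y) = χ y⁻¹`), and `z ↦ (w - z)/(w' - z)` is a bijection of `F \ {w'}` onto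
`F \ {1}` (inverse `y ↦ (w - y w')/(1 - y)`), so the sum is `∑_y χ y - χ 1 = -1`. -/
def ORT : Prop := ∀ (χ : MulChar F ℂ) (w w' : F), χ ≠ 1 →
  ∑ z, χ (w - z) * (starRingEnd ℂ) (χ (w' - z)) =
    if w = w' then (Fintype.card F : ℂ) - 1 else -1

/-- **L2M** [ORT] PROOF. Expand: `∑_{w,w'} c w conj(c w') ∑_z χ(w-z) conj(χ(w'-z)) = q ∑ |c w|² - |∑ c w|²`. -/
def L2M : Prop := ∀ (χ : MulChar F ℂ) (c : F → ℂ), χ ≠ 1 → (∀ w, ‖c w‖ ≤ 1) →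
  ∑ z, ‖∑ w, c w * χ (w - z)‖ ^ 2 ≤ (Fintype.card F : ℝ) ^ 2

/-- **L2A** PROOF. Parseval: `∑_z ψ(z(w - w')) = q` if `w = w'` and `0` otherwise
(`AddChar.sum_mulShift`, a nontrivial additive character of a field is primitive), so the sum is `q ∑ |c w|²`. -/
def L2A : Prop := ∀ (ψ : AddChar F ℂ) (c : F → ℂ), ψ ≠ 1 → (∀ w, ‖c w‖ ≤ 1) →
  ∑ z, ‖∑ w, c w * ψ (z * w)‖ ^ 2 ≤ (Fintype.card F : ℝ) ^ 2

/-- **TRI** [GEN, L2M] PROOF. GEN with `h x = χ₂(x-s) χ₃(x-1)`, `E = {1, s, s⁻¹}`,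
`T z = ‖∑_w χ₃(w) χ₂⁻¹(w-1) χ₂(w-z)‖` (L2M), `A r = r(1-s)²/((1-rs)(r-s))`. Fibres: `A r = z` gives
`z(1-rs)(r-s) = r(1-s)²`, a quadratic equation in `r` whose leading coefficient is `-zs`; `z ≠ 0` as `r ≠ 0`,
`s ≠ 1`; so at most two solutions. For `r ≠ 0`, `r ∉ E` and `x ≠ 1/r` put `w = (x-1)/(x-1/r)`, a bijection
`F \ {1/r} → F \ {1}` with inverse `x = (w/r-1)/(w-1)`. Then `χ₃(x-1) conj χ₃(rx-1) = conj χ₃(r) · χ₃(w)` and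
`(x-s)/(x-s/r) = ρ (w-w₁)/(w-w₂)` with `ρ ≠ 0`, `w₁ = r(1-s)/(1-rs)`, `w₂ = (r-s)/(1-s)`. So the sum over
all `x ≠ 1/r` has norm `‖∑_{w≠1} χ₃(w) χ₂(w-w₁) χ₂⁻¹(w-w₂)‖`, which differs from the sum over all `w` by at
most `1`; the latter is `T(w₁/w₂)` in norm after `w → w₂ w`, `w₁/w₂ = A r`. The term `x = 1/r` is `0`,
the missing term `x = 0` costs at most `1`. (Numerically checked for all `p ≤ 13`.) -/
def TRI : Prop := ∀ (χ₁ χ₂ χ₃ : MulChar F ℂ) (s : F), χ₂ ≠ 1 → χ₃ ≠ 1 → s ≠ 0 → s ≠ 1 →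
  ‖∑ x, χ₁ x * (χ₂ (x - s) * χ₃ (x - 1))‖ ^ 2 ≤ 7 * Fintype.card F * √(Fintype.card F)

/-- **TRI2** [TRI] PROOF. Replace `x` by `t x` and use TRI with `s/t`. -/
def TRI2 : Prop := ∀ (χ₁ χ₂ χ₃ : MulChar F ℂ) (s t : F), χ₂ ≠ 1 → χ₃ ≠ 1 → s ≠ 0 → t ≠ 0 → s ≠ t →
  ‖∑ x, χ₁ x * (χ₂ (x - s) * χ₃ (x - t))‖ ^ 2 ≤ 7 * Fintype.card F * √(Fintype.card F)

/-- **MIX** [GEN, L2A] PROOF. GEN with `h x = χ₂(x-t) ψ(x)`, `E = {1}`, `A r = -t(1-r)²/r`,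
`T z = ‖∑_w χ₂(w-1) χ₂⁻¹(w) ψ(zw)‖` (L2A). For `r ≠ 0, 1` put `x = t/r + t(1-1/r) w`:
`x - t = t(1-1/r)(w-1)`, `rx - t = r t(1-1/r) w`, `(1-r)x = (1-r)t/r + (A r) w`. So the sum over all `x` of
`h x conj(h(rx)) = χ₂(x-t) χ₂⁻¹(rx-t) ψ((1-r)x)` has norm `T (A r)`; the term `x = 0` costs at most `1`.
`A r = z` is the quadratic equation `t r² + (z-2t) r + t = 0`. -/
def MIX : Prop := ∀ (χ₁ χ₂ : MulChar F ℂ) (ψ : AddChar F ℂ) (t : F), χ₂ ≠ 1 → ψ ≠ 1 → t ≠ 0 →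
  ‖∑ x, χ₁ x * (χ₂ (x - t) * ψ x)‖ ^ 2 ≤ 7 * Fintype.card F * √(Fintype.card F)

/-- **KLO** [GEN, L2A] PROOF. GEN with `χ = 1`, `h x = ψ(x + b/x)` (`b/0 = 0`), `E = {1}`,
`A r = -b(1-r)²/r`, `T z = ‖∑_{x≠0} ψ(x + z/x)‖ = ‖∑_w c w ψ(zw)‖` with `c w = ψ(1/w)` for `w ≠ 0`,
`c 0 = 0` (L2A). For `r ≠ 0, 1`: `h x conj(h(rx)) = ψ((1-r)x + b(1-1/r)/x)`, put `x → x/(1-r)`:
`b(1-1/r)(1-r) = A r`. -/
def KLO : Prop := ∀ (ψ : AddChar F ℂ) (b : F), ψ ≠ 1 → b ≠ 0 →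
  ‖∑ x ∈ univ.erase (0 : F), ψ (x + b / x)‖ ^ 2 ≤ 7 * Fintype.card F * √(Fintype.card F)

/-- **JAC** [CSR, ORT] PROOF. CSR with `h x = χ₂(x-t)`. `r = 1` contributes at most `q`. For `r ≠ 0, 1`:
`h x conj(h(rx)) = conj χ₂(r) · χ₂(x-t) conj χ₂(x-t/r)`, whose sum over all `x` is `-1` in norm (ORT with
`x → -x`), and the term `x = 0` costs at most `1`. Total `≤ q + 2(q-2) ≤ 4q`. -/
def JAC : Prop := ∀ (χ₁ χ₂ : MulChar F ℂ) (t : F), χ₂ ≠ 1 → t ≠ 0 →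
  ‖∑ x, χ₁ x * χ₂ (x - t)‖ ^ 2 ≤ 4 * Fintype.card F

/-- **GAU** [CSR] PROOF. CSR with `h = ψ`: `∑_{x≠0} ψ((1-r)x) = -1` for `r ≠ 1`, `≤ q` for `r = 1`. -/
def GAU : Prop := ∀ (χ₁ : MulChar F ℂ) (ψ : AddChar F ℂ), ψ ≠ 1 →
  ‖∑ x, χ₁ x * ψ x‖ ^ 2 ≤ 4 * Fintype.card F

/-- **TP** [TRI2, JAC] PROOF. `s, t ≠ 0`: TRI2 with `χ₃ = χ₂⁻¹`. `s = 0`: the summand is
`(χ₁χ₂)(x) χ₂⁻¹(x-t)`, JAC. `t = 0`: `(χ₁χ₂⁻¹)(x) χ₂(x-s)`, JAC. -/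
def TP : Prop := ∀ (χ₁ χ₂ : MulChar F ℂ) (s t : F), χ₂ ≠ 1 → s ≠ t →
  ‖∑ x, χ₁ x * (χ₂ (x - s) * χ₂⁻¹ (x - t))‖ ^ 2 ≤ 7 * Fintype.card F * √(Fintype.card F)

/-- **COR** [TRI2, ORT] PROOF. (1) `s = s'`, `t ≠ t'`: the summand is `χ⁻¹(x-t) χ(x-t')` for `x ≠ s` and `0` for
`x = s`; by ORT the sum is at most `2` in norm. (2) `t = t'`: same. (3) `s = t'`, then `t ≠ s'`: the summand is
`χ²(x-s) χ⁻¹(x-t) χ⁻¹(x-s')`; shift by `s` and use TRI2 (`χ₁ = χ²` arbitrary, points `t-s`, `s'-s`).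
(4) `t = s'`, `s ≠ t'`: `χ⁻²(x-t) χ(x-s) χ(x-t')`, same. (5) all four different: `x = t' + 1/y`, `y ≠ 0`
(the term `x = t'` is `0`): the summand becomes `χ(ay+1) χ⁻¹(by+1) χ⁻¹(dy+1)`, `a = t'-s`, `b = t'-t`,
`d = t'-s'` nonzero and different; add the term `y = 0` (cost `1`), take out constants, shift `y` by `-1/a` and
use TRI2 with the points `1/a-1/b`, `1/a-1/d`. `(√(7q√q) + 1)² ≤ 16 q√q`. -/
def COR : Prop := ∀ (χ : MulChar F ℂ) (s t s' t' : F), χ ≠ 1 → s ≠ t → s' ≠ t' →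
  ¬ (s' = s ∧ t' = t) → ¬ (s' = t ∧ t' = s) →
  ‖∑ x, (χ (x - s) * χ⁻¹ (x - t)) * (starRingEnd ℂ) (χ (x - s') * χ⁻¹ (x - t'))‖ ^ 2 ≤
    16 * Fintype.card F * √(Fintype.card F)

end

/-- **HMC** [HM, COR] PROOF. HM with `R = S`, `φ P x = χ(x-P.1) χ⁻¹(x-P.2)`, `ε = κ²/2`, `i₀ = P.swap`; the
correlations are at most `√(16q√q) ≤ ε q` for `q ≥ q₀(κ)` (COR). HM gives `#S κ² ≤ 2 + #S κ²/2`. -/
def HMC : Prop := ∀ κ : ℝ, 0 < κ → ∃ q₀ : ℕ, ∀ (F : Type) [Field F] [Fintype F] [DecidableEq F]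
  (χ : MulChar F ℂ) (f : F → ℂ) (S : Finset (F × F)), q₀ ≤ Fintype.card F → χ ≠ 1 →
  (∀ x, ‖f x‖ ≤ 1) → (∀ P ∈ S, P.1 ≠ P.2 ∧
    κ * Fintype.card F ≤ ‖∑ x, f x * (χ (x - P.1) * χ⁻¹ (x - P.2))‖) →
  (#S : ℝ) * κ ^ 2 ≤ 4

/-! ## Part I. Indices and the characters `e(j ind(x)/(q-1))`, `e(l x/p)` -/

/-- **IND** PROOF. As `q ≥ 3` some power of `α` is not `0` or `1`, so `α ≠ 0`. Every nonzero element is a power of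
`α`, so the order of `α` is `q - 1` (the powers with exponents below the order give all `q-1` elements).
`ind` is the smallest exponent (`Nat.sInf_mem`), and the exponent can be reduced modulo `q-1`. -/
def IND : Prop := ∀ (F : Type) [Field F] [Fintype F] (α : F), Gen α → 3 ≤ Fintype.card F →
  α ≠ 0 ∧ (∀ i : ℤ, α ^ i = 1 ↔ ((Fintype.card F : ℤ) - 1) ∣ i) ∧
  (∀ x : F, x ≠ 0 → α ^ (ind α x) = x ∧ (ind α x : ℤ) < (Fintype.card F : ℤ) - 1) ∧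
  (∀ i j : ℤ, α ^ i = α ^ j ↔ ((Fintype.card F : ℤ) - 1) ∣ i - j)

/-- **CHM** [IND] PROOF. `χ x = e(ind α x/(q-1))` for `x ≠ 0`, `χ 0 = 0`; `ind(xy) ≡ ind x + ind y` modulo
`q-1` (IND). (Or `MulChar.ofRootOfUnity`.) `(χ^j) x = (χ x)^j` for `x ≠ 0`. `ind α α ≡ 1`, so
`(χ^j) α = e(j/(q-1)) ≠ 1` if `0 < |j| < q-1`. -/
def CHM : Prop := ∀ (F : Type) [Field F] [Fintype F] [DecidableEq F] (α : F), Gen α →
  3 ≤ Fintype.card F → ∃ χ : MulChar F ℂ,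
    (∀ x : F, x ≠ 0 → ∀ j : ℤ,
      (χ ^ j) x = ex (j * ((ind α x : ℝ) / ((Fintype.card F : ℝ) - 1)))) ∧
    (∀ j : ℤ, j ≠ 0 → |j| < (Fintype.card F : ℤ) - 1 → χ ^ j ≠ 1)

/-- **CHA** PROOF. `ψ l = ZMod.stdAddChar.mulShift (l : ZMod p)`; `(l x).val ≡ l x.val` modulo `p`. -/
def CHA : Prop := ∀ (p : ℕ) [Fact p.Prime], ∃ ψ : ℤ → AddChar (ZMod p) ℂ,
  (∀ (l : ℤ) (x : ZMod p), ψ l x = ex (l * cw p x)) ∧
  (∀ (l : ℤ) (x : ZMod p), ψ l x = ψ 1 (l * x)) ∧ ψ 0 = 1 ∧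
  (∀ l : ℤ, l ≠ 0 → |l| < p → ψ l ≠ 1)

/-! ## Part W. The Welch arrays -/

/-- **WPAT** [IND] PROOF. `Wa` consists of the dots `(i, val(c g^i))`, `0 ≤ i ≤ p-2`, one for each `i`. Sidon: write
`x_a = c g^{a.1} = a.2 ≠ 0`. If `a - b = a' - b'` then `x_a/x_b = x_{a'}/x_{b'} = λ` and `x_a - x_b = x_{a'} - x_{b'}`.
If `λ = 1` then `x_a = x_b`, `a = b`. Otherwise `x_b(λ-1) = x_{b'}(λ-1)`, so `b = b'` and `a = a'`. (An element of `Wa`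
is determined by `x`: `a.2` is the value, `a.1` the index.) -/
def WPAT : Prop := ∀ (p : ℕ) [Fact p.Prime] (g c : ZMod p), 3 ≤ p → Gen g → c ≠ 0 →
  (∀ P ∈ Wa p g c, P ∈ Wt p g c) ∧
  (∀ P ∈ Wa p g c, 0 ≤ P.1 ∧ P.1 < (p - 1 : ℕ) ∧ 1 ≤ P.2 ∧ P.2 ≤ (p - 1 : ℕ)) ∧
  #(Wa p g c) = p - 1 ∧ IsSid (Wa p g c)

/-- **WSOL** [IND] PROOF. Let `e = c g^u`, `v̄ = (v : ZMod p)`, `x ∈ Xw e v̄`, `y = Mw e v̄ x`, `z = xy/e`; all are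
nonzero, and `x + y = v̄ + z` (clear denominators: `y(x-e) = e(x-v̄)`). Let `i, k, j` be the indices of `x/c`,
`y/c`, `z/c`; `g^(i+k) = xy/c² = g^(u+j)`, so `i+k ≡ u+j` modulo `p-1`, and `0 ≤ i+k-u < p-1`, `0 ≤ j < p-1` give
`i+k-u = j`. In the same way `x.val + y.val - v = z.val`. So the dots `w_x = (i, x.val)`, `w_y`, `w_z` are in `Wa`
and `w_x + w_y - (u,v) = w_z`. The map `x ↦ (w_x, w_y)` is injective. -/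
def WSOL : Prop := ∀ (p : ℕ) [Fact p.Prime] (g c : ZMod p) (u v : ℤ), 3 ≤ p → Gen g → c ≠ 0 →
  (v : ZMod p) ≠ c * g ^ u →
  #((Xw (c * g ^ u) (v : ZMod p)).filter (fun x =>
    (0 ≤ aw p g c x + aw p g c (Mw (c * g ^ u) (v : ZMod p) x) - u / ((p : ℝ) - 1) ∧
      aw p g c x + aw p g c (Mw (c * g ^ u) (v : ZMod p) x) - u / ((p : ℝ) - 1) < 1) ∧
    (0 ≤ cw p x + cw p (Mw (c * g ^ u) (v : ZMod p) x) - v / (p : ℝ) ∧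
      cw p x + cw p (Mw (c * g ^ u) (v : ZMod p) x) - v / (p : ℝ) < 1))) ≤
  #(sols (Wa p g c) (u, v))

/-- **WB** [LIM, MIX, JAC, GAU, CHM, CHA] (blank row: `v = 0`). PROOF. `X = F \ {0, e}`, `Mw e 0 x = ex/(x-e)`. With
`χ` of CHM and `ψ` of CHA the sum is, up to a constant of norm one, `∑_{x ∈ X} χ^j(x) χ^k(x) χ^(-k)(x-e) ψ_l(x)`.
`k ≠ 0`: the sum may be extended to all `x` (characters vanish at `0`), it is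
`∑ χ^(j+k)(x) χ^(-k)(x-e) ψ_l(x)`: MIX if `l ≠ 0`, JAC if `l = 0`. `k = 0`: `∑_{x≠e} χ^j(x) ψ_l(x)`: GAU and one term if
`l ≠ 0`; if `l = 0` then `j ≠ 0` and `∑ χ^j = 0`. Everything is at most `√(16 q√q) + 5 ≤ κ (q-5) ≤ κ #X` for
`q ≥ q₀` (LIM); also `q₀ > K + 2`. -/
def WB : Prop := ∀ (K : ℕ) (κ : ℝ), 0 < κ → ∃ q₀ : ℕ, ∀ (p : ℕ) [Fact p.Prime] (g c e : ZMod p),
  q₀ ≤ p → Gen g → c ≠ 0 → e ≠ 0 →
  Eq3 (Xw e 0) (aw p g c) (fun x => aw p g c (Mw e 0 x)) (cw p) K κ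

/-- **WP** [LIM, KLO, CHA] PROOF. `X = F \ {0, v, e}`, `Mw e v x = e + e(e-v)/(x-e)`, the sum is
`∑_{x∈X} ψ_j(x) ψ_k(Mw e v x)`. `k = 0`: `j ≠ 0`, `∑ ψ_j = 0`, at most `3`. `k ≠ 0`: over all `x ≠ e` it is, with
`x = e + y`, up to a constant `∑_{y≠0} ψ_1(jy + k e(e-v)/y)`; `j = 0`: `-1`; `j ≠ 0`: `y → y/j` and KLO with
`b = jke(e-v) ≠ 0`. Two more terms. LIM. -/
def WP : Prop := ∀ (K : ℕ) (κ : ℝ), 0 < κ → ∃ q₀ : ℕ, ∀ (p : ℕ) [Fact p.Prime] (e v : ZMod p),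
  q₀ ≤ p → e ≠ 0 → v ≠ e → Eq2 (Xw e v) (cw p) (fun x => cw p (Mw e v x)) K κ

/-- **WE** [LIM, GAU, TP, HMC, CHM, CHA] PROOF. Let `(e, v) ∈ S`; some `(j,k,l) ≠ 0` has a sum larger than `κ #X`,
`X = F \ {0, v, e}`. The sum is up to a constant `∑_{x∈X} χ^j(x) χ^k(x-v) χ^(-k)(x-e) ψ_l(x)`. If `k = 0` it is at most
`2√q + 3` (GAU, or `∑ χ^j = 0`); if `l = 0`, `k ≠ 0` it is at most `√(7q√q)` (TP; the missing terms are `0`): both are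
impossible for `q ≥ q₀`. So `k, l ≠ 0` and, with `f(x) = χ^j(x) ψ_l(x)`,
`‖∑_x f(x) χ^k(x-v) (χ^k)⁻¹(x-e)‖ > κ (q-3) ≥ (κ/2) q`. By HMC there are at most `16/κ²` such pairs `(v, e)` for every
`(j,k,l)`, and there are at most `(2K)³` triples: `C = ⌈8K³ · 16/κ²⌉`. -/
def WE : Prop := ∀ (K : ℕ) (κ : ℝ), 0 < κ → ∃ q₀ C : ℕ, ∀ (p : ℕ) [Fact p.Prime] (g c : ZMod p)
  (S : Finset (ZMod p × ZMod p)), q₀ ≤ p → Gen g → c ≠ 0 →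
  (∀ P ∈ S, P.1 ≠ 0 ∧ P.2 ≠ P.1 ∧
    ¬ Eq3 (Xw P.1 P.2) (aw p g c) (fun x => aw p g c (Mw P.1 P.2 x)) (cw p) K κ) → #S ≤ C

/-- **GOODW** [BUMPS, WPAT, WSOL, WB, WP, WE, IND] PROOF. Take `K, κ, η₀, ε₀` of BUMPS, `η = η₀/2`, `ε = ε₀/2 < 1/4`,
`p` large; `m = m₁ = p - 1`. Blank: `v ∈ {0, p}`, `v̄ = 0 ≠ e = c g^u`. `Bump1` for `X = Xw e 0`,
`u/(p-1) ∈ [-3/10, 13/10]`, `v/p ∈ {0, 1}`, the functions `aw`, `aw ∘ M`, `cw`, `cw ∘ M` have values in `[0,1)`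
(IND), Eq3 by WB, Eq2 by WP; WSOL: `#sols ≥ η₀ (p-2) ≥ η (p-1)`. Exceptions: let `P = (u,v) ∈ S`, `e = c g^u`,
`v̄ = v`; `v̄ ≠ e` as `P ∉ Wt`. If Eq3 holds for `(e, v̄)` then Bump1 (`v/p ∈ [-ε₀, 1+ε₀]`,
`u/(p-1) ∈ [-ε₀, 1+ε₀]`, and `ε₀ ≤ 3/10` may be assumed by monotonicity) and WSOL give `#sols ≥ η₀ (p-3) ≥ η m`,
contradiction. So `(e, v̄)` is in the exceptional set of WE (at most `C₀` pairs), and every pair `(e, v̄)` comes from at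
most `4` points `P` of the box (`u` is determined modulo `p-1`, `v` modulo `p`, both in an interval of length
`< 3(p-1)/2`). `C = 4C₀`. -/
def GOODW : Prop := ∃ (η ε : ℝ) (C N : ℕ), 0 < η ∧ 0 < ε ∧ ∀ (p : ℕ) [Fact p.Prime] (g c : ZMod p),
  N ≤ p → Gen g → c ≠ 0 → Good (Wa p g c) (Wt p g c) (p - 1) (p - 1) η ε C

/-! ## Part G. The Golomb arrays -/

/-- **GPAT** [IND] PROOF. `Ga` consists of the dots `(ind α x, ind β (1-x))`, `x ≠ 0, 1` (if `α^i + β^j = 1` with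
`1 ≤ i, j ≤ q-2` then `x = α^i ≠ 0, 1`). Sidon: if `a - b = a' - b'` then with `x_a = α^{a.1}`, `1 - x_a = β^{a.2}`:
`x_a = λ x_b`, `x_{a'} = λ x_{b'}`, `1 - x_a = μ (1 - x_b)`, `1 - x_{a'} = μ (1 - x_{b'})`. So
`(λ-μ) x_b = 1-μ = (λ-μ) x_{b'}`. If `λ ≠ μ` then `x_b = x_{b'}`, `b = b'`, `a = a'`. If `λ = μ` then `μ = 1 = λ`,
`x_a = x_b`, `a = b`. -/
def GPAT : Prop := ∀ (F : Type) [Field F] [Fintype F] (α β : F), 3 ≤ Fintype.card F → Gen α → Gen β →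
  (∀ P ∈ Ga α β, P ∈ Gt α β) ∧
  (∀ P ∈ Ga α β, 0 ≤ P.1 ∧ P.1 < (Fintype.card F - 1 : ℕ) ∧ 1 ≤ P.2 ∧
    P.2 ≤ (Fintype.card F - 2 : ℕ)) ∧
  #(Ga α β) = Fintype.card F - 2 ∧ IsSid (Ga α β)

/-- **GSOL** [IND] PROOF. Let `e = α^u`, `f = β^v`, `x ∈ Xg e f`, `y = Mg e f x`, `z = xy/e`. From
`y((e+f)x - e) = e(x-1+f)`: `(1-x)(1-y) = f(1-z)`, `1 - y = f(x-e)/((e+f)x-e)`. So `x, y, z` are different from `0`
and `1`. With the indices: `ind α x + ind α y ≡ u + ind α z` and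
`ind β (1-x) + ind β (1-y) ≡ v + ind β (1-z)` modulo `q-1`; the inequalities of the filter and
`0 ≤ ind < q-1` turn them into equalities. The dots `w_x = (ind α x, ind β (1-x))`, `w_y`, `w_z` are in `Ga`
(indices `≥ 1` since `x, 1-x ≠ 1`), `w_x + w_y - (u,v) = w_z`; `x ↦ (w_x, w_y)` is injective. -/
def GSOL : Prop := ∀ (F : Type) [Field F] [Fintype F] [DecidableEq F] (α β : F) (u v : ℤ),
  3 ≤ Fintype.card F → Gen α → Gen β → α ^ u + β ^ v ≠ 1 →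
  #((Xg (α ^ u) (β ^ v)).filter (fun x =>
    (0 ≤ ag α x + ag α (Mg (α ^ u) (β ^ v) x) - u / ((Fintype.card F : ℝ) - 1) ∧
      ag α x + ag α (Mg (α ^ u) (β ^ v) x) - u / ((Fintype.card F : ℝ) - 1) < 1) ∧
    (0 ≤ cg β x + cg β (Mg (α ^ u) (β ^ v) x) - v / ((Fintype.card F : ℝ) - 1) ∧
      cg β x + cg β (Mg (α ^ u) (β ^ v) x) - v / ((Fintype.card F : ℝ) - 1) < 1))) ≤
  #(sols (Ga α β) (u, v))

/-- **GB** [LIM, TRI2, JAC, CHM] (blank row: `f = 1`). PROOF. `χ`, `ω` of CHM for `α`, `β`. `M x = ex/((e+1)x-e)`,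
`t = e/(e+1) ≠ 0, 1`, `X = F \ {0, 1, e, t}`. The sum is up to a constant of norm one
`∑_{x∈X} χ^j(x) χ^k(x) χ^(-k)(x-t) ω^l(1-x)`. `k ≠ 0`: up to two terms (`x = 1`, `x = e`) the sum over all `x` of
`χ^(j+k)(x) χ^(-k)(x-t) ω^l(1-x)`: `l ≠ 0` TRI2 (points `t`, `1`); `l = 0` JAC. `k = 0`: `χ^j(x) ω^l(1-x)`: `l ≠ 0`
JAC; `l = 0`: `∑ χ^j = 0`; at most `4` missing terms. LIM. -/
def GB : Prop := ∀ (K : ℕ) (κ : ℝ), 0 < κ → ∃ q₀ : ℕ, ∀ (F : Type) [Field F] [Fintype F]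
  [DecidableEq F] (α β e : F), q₀ ≤ Fintype.card F → Gen α → Gen β → e ≠ 0 → e ≠ -1 →
  Eq3 (Xg e 1) (ag α) (fun x => ag α (Mg e 1 x)) (cg β) K κ

/-- **GP** [LIM, TP, JAC, CHM] PROOF. `1 - M x = f(x-e)/((e+f)x-e)`. The sum is
`∑_{x∈X} ω^j(1-x) ω^k(1-M x)`. `k = 0`: `∑ ω^j(1-x) = 0`, at most `5` missing terms. `k ≠ 0`, `e + f ≠ 0`,
`t = e/(e+f)`: up to a constant and missing terms (`x = 0`, `x = 1-f`) it is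
`∑ ω^j(1-x) ω^k(x-e) ω^(-k)(x-t)`, with `y = 1-x` TP for the points `1-e ≠ 1-t` (`e = t` iff `e + f = 1`).
`e + f = 0`: `1 - M x = x - e` and `e ≠ 1` (else `f = -1`): JAC with the point `1-e`. LIM. -/
def GP : Prop := ∀ (K : ℕ) (κ : ℝ), 0 < κ → ∃ q₀ : ℕ, ∀ (F : Type) [Field F] [Fintype F]
  [DecidableEq F] (β e f : F), q₀ ≤ Fintype.card F → Gen β → e ≠ 0 → f ≠ 0 → e + f ≠ 1 →
  ¬ (e = 1 ∧ f = -1) → Eq2 (Xg e f) (cg β) (fun x => cg β (Mg e f x)) K κ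

/-- **GJ** [LIM, JAC, CHM] PROOF. `X` is `F` without at most five points; `∑ χ^j(x) ω^l(1-x)`, `(j,l) ≠ 0`: `l ≠ 0` JAC,
`l = 0`: `∑ χ^j = 0`. -/
def GJ : Prop := ∀ (K : ℕ) (κ : ℝ), 0 < κ → ∃ q₀ : ℕ, ∀ (F : Type) [Field F] [Fintype F]
  [DecidableEq F] (α β e f : F), q₀ ≤ Fintype.card F → Gen α → Gen β → e + f = 0 →
  Eq2 (Xg e f) (ag α) (cg β) K κ

/-- **GE** [LIM, TRI2, TP, JAC, HMC, CHM] PROOF. `s = 1-f ≠ 1`, `M x = e(x-s)/((e+f)x-e)`. Let `(e,f) ∈ S`; some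
`(j,k,l) ≠ 0` has a sum larger than `κ #X ≥ κ(q-5)`; the sum is `∑_{x∈X} χ^j(x) χ^k(M x) ω^l(1-x)`.
`k = 0`: JAC (or `∑ χ^j = 0`) and at most `5` missing terms: impossible for `q ≥ q₀`. `k ≠ 0`, `e + f = 0`: up to
missing terms `∑ χ^j(x) χ^k(x-s) ω^l(1-x)`, `s ≠ 0` (else `f = 1`, `e = -1`), `s ≠ 1`: TRI2 (`l ≠ 0`) or JAC (`l = 0`):
impossible. `k ≠ 0`, `e + f ≠ 0`, `t = e/(e+f)`; `s ≠ t` because `e + f ≠ 1`. `l = 0`: TP: impossible. `l ≠ 0`: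
`f₀(x) = χ^j(x) ω^l(1-x)` has `‖∑_x f₀(x) χ^k(x-s) (χ^k)⁻¹(x-t)‖ ≥ κ(q-5) - 5 ≥ (κ/2) q`, by HMC at most
`16/κ²` pairs `(s,t)` for every `(j,k,l)`, and `(e,f) ↦ (s,t)` is injective (`f = 1-s`, `e(1-t) = tf`, `t ≠ 1`).
At most `(2K)³` triples. -/
def GE : Prop := ∀ (K : ℕ) (κ : ℝ), 0 < κ → ∃ q₀ C : ℕ, ∀ (F : Type) [Field F] [Fintype F]
  [DecidableEq F] (α β : F) (S : Finset (F × F)), q₀ ≤ Fintype.card F → Gen α → Gen β →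
  (∀ P ∈ S, P.1 ≠ 0 ∧ P.2 ≠ 0 ∧ P.1 + P.2 ≠ 1 ∧ ¬ (P.1 = -1 ∧ P.2 = 1) ∧
    ¬ Eq3 (Xg P.1 P.2) (ag α) (fun x => ag α (Mg P.1 P.2 x)) (cg β) K κ) → #S ≤ C

/-- **GLI** [IND] PROOF. `q` is odd, `α^((q-1)/2) = -1` (its square is `1`, it is not `1`), so
`ind α (-x) = ind α x ± (q-1)/2`, `a = ag α x`, `ag α (-x) = a ± 1/2`, both in `[0,1)`: with `+`, `a < 1/2`,
`a + a' = 2a + 1/2`; with `-`, `a ≥ 1/2`, `a + a' = 2a - 1/2`. Both are in `[1/2, 3/2)`. The last claim: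
`α^u = -1` iff `u ≡ (q-1)/2` modulo `q-1`. -/
def GLI : Prop := ∀ (F : Type) [Field F] [Fintype F] (α : F), Gen α → 3 ≤ Fintype.card F →
  (-1 : F) ≠ 1 →
  (∀ x : F, x ≠ 0 → 0 ≤ ag α x + ag α (-x) - 1 / 2 ∧ ag α x + ag α (-x) - 1 / 2 < 1) ∧
  (∀ u : ℤ, α ^ u = -1 → -(3 / 10 : ℝ) * (Fintype.card F - 1) ≤ u →
    (u : ℝ) ≤ 13 / 10 * (Fintype.card F - 1) → (u : ℝ) / ((Fintype.card F : ℝ) - 1) = 1 / 2)

/-- **GBL** [BUMPS, GSOL, GB, GP, GJ, GLI, IND] (blank rows). PROOF. `K, κ, η₀` of BUMPS, `η = η₀/2`, `q` large.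
`v ∈ {0, q-1}`, `f = β^v = 1`, `v/(q-1) ∈ {0,1}`, `e = α^u`. (1) `e ≠ -1`: `(e,f) ≠ (1,-1)` (if `1 = -1` and `e = 1` then
`e = -1`), `Bump1` with GB, GP, then GSOL: `#sols ≥ η₀ #X ≥ η₀ (q-5)`. (2) `e = -1 ≠ 1`: `Mg (-1) 1 x = -x`, `u/(q-1) = 1/2` by GLI, the first
condition of GSOL always holds by GLI; `Bump2` with GP. (3) `e = -1 = 1`: `u ≡ 0` modulo `q-1` so `u ∈ {0, q-1}`,
`Mg 1 1 x = x` (characteristic `2`); `Bump3` with GJ. -/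
def GBL : Prop := ∃ (η : ℝ) (N : ℕ), 0 < η ∧ ∀ (F : Type) [Field F] [Fintype F] (α β : F) (u v : ℤ),
  N ≤ Fintype.card F → Gen α → Gen β → -(3 / 10 : ℝ) * (Fintype.card F - 1) ≤ u →
  (u : ℝ) ≤ 13 / 10 * (Fintype.card F - 1) → v = 0 ∨ v = Fintype.card F - 1 →
  η * Fintype.card F ≤ #(sols (Ga α β) (u, v))

/-- **GEX** [BUMPS, GSOL, GP, GE, IND] (exceptions). PROOF. `K, κ, η₀, ε₀` of BUMPS (with `ε₀ ≤ 1/10`), `η = η₀/2`,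
`ε = ε₀/2`, `q` large. Let `P = (u,v) ∈ S`, `e = α^u`, `f = β^v`, `e + f ≠ 1`. If `(e,f)` is not `(1,-1)` or `(-1,1)` and Eq3
holds then `Bump1`, GP and GSOL give `#sols ≥ η₀(q-5) ≥ η q`, contradiction. So `(e,f)` is one of at most `C₀ + 2`
pairs, and every pair comes from at most `4` points of the box. -/
def GEX : Prop := ∃ (η ε : ℝ) (C N : ℕ), 0 < η ∧ 0 < ε ∧ ∀ (F : Type) [Field F] [Fintype F] (α β : F)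
  (S : Finset (ℤ × ℤ)), N ≤ Fintype.card F → Gen α → Gen β →
  (∀ P ∈ S, P ∉ Gt α β ∧ -ε * Fintype.card F ≤ P.1 ∧ (P.1 : ℝ) ≤ (1 + ε) * Fintype.card F ∧
    -ε * Fintype.card F ≤ P.2 ∧ (P.2 : ℝ) ≤ (1 + ε) * Fintype.card F ∧
    (#(sols (Ga α β) P) : ℝ) < η * Fintype.card F) → #S ≤ C

/-- **GOODG** [GPAT, GBL, GEX] PROOF. Smaller `η` for both; `m = q - 2`, `m₁ = q - 1`. -/
def GOODG : Prop := ∃ (η ε : ℝ) (C N : ℕ), 0 < η ∧ 0 < ε ∧ ∀ (F : Type) [Field F] [Fintype F]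
  (α β : F), N ≤ Fintype.card F → Gen α → Gen β →
  Good (Ga α β) (Gt α β) (Fintype.card F - 2) (Fintype.card F - 1) η ε C

/-! ## Part E. Sets almost invariant under translations by the powers of a primitive element -/

/-- **SX** PROOF. Count the pairs `(x, s)`, `s ∈ S`, `x ∈ X`, `x + s ∈ X`: for every `s ∈ S` there are
`#X - #((X+s) \ X) ≥ #X/2`; on the other hand `(x, s) ↦ (x, x+s)` is injective into `X × X`. So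
`#S #X/2 ≤ #X²`. -/
def SX : Prop := ∀ (F : Type) [Field F] [DecidableEq F] (X S : Finset F), X.Nonempty →
  (∀ s ∈ S, 2 * #(X.image (· + s) \ X) ≤ #X) → #S ≤ 2 * #X

/-- **SUB** PROOF. `(X+(s+t)) \ X` is contained in `((X+s)\X)+t ∪ (X+t)\X`; induction on `n` and on the sum. -/
def SUB : Prop := ∀ (F : Type) [Field F] [DecidableEq F] (X : Finset F),
  (∀ s t : F, #(X.image (· + (s + t)) \ X) ≤ #(X.image (· + s) \ X) + #(X.image (· + t) \ X)) ∧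
  (∀ (κ : ℕ) (n : ℕ → ℕ) (s : ℕ → F),
    #(X.image (· + ∑ k ∈ range κ, (n k : F) * s k) \ X) ≤
      ∑ k ∈ range κ, n k * #(X.image (· + s k) \ X))

/-- **LI** PROOF. `F = 𝔽_p(α)` as every nonzero element is a power of `α`, so the degree of the minimal polynomial of `α`
over `ZMod p` is `r`, `q = p^r`, and `1, α, …, α^(r-1)` are linearly independent
(`linearIndependent_pow`). Digits `< p` are determined by their classes. -/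
def LI : Prop := ∀ (F : Type) [Field F] [Fintype F] (α : F) (p r κ : ℕ) [CharP F p] (n n' : ℕ → ℕ),
  p.Prime → Gen α → Fintype.card F = p ^ r → κ ≤ r → (∀ k < κ, n k < p ∧ n' k < p) →
  ∑ k ∈ range κ, (n k : F) * α ^ k = ∑ k ∈ range κ, (n' k : F) * α ^ k → ∀ k < κ, n k = n' k

/-- **EXA** [SX, SUB, LI] PROOF. Let `N = #X`, `E ≥ 1`. Let `κ₁` be the largest integer with `16 E² κ₁⁴ ≤ N`,
so `4Eκ₁² ≤ √N`. For `κ ≤ κ₁`, `κ ≤ r`, and digits `n k < p`, the element `∑_{k<κ} n k α^k` has (SUB) cost at most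
`∑_{k<κ} p E(1+k) ≤ pEκ² ≤ 2√N E κ² ≤ N/2` (as `p² ≤ 4N`). By LI these are `p^κ` elements, so by SX
`p^κ ≤ 2N`. If `r ≤ κ₁` take `κ = r`: `q ≤ 2N`, excluded. So `κ = κ₁ < r` and `2^κ₁ ≤ 2N < 32E²(κ₁+1)⁴`, so
`κ₁ ≤ K₀(E)` and `N < 16E²(K₀+1)⁴`. -/
def EXA : Prop := ∀ E : ℕ, 1 ≤ E → ∃ C : ℕ, ∀ (F : Type) [Field F] [Fintype F] [DecidableEq F]
  (α : F) (X : Finset F) (p r : ℕ) [CharP F p], p.Prime → Fintype.card F = p ^ r → Gen α →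
  Inv X α E → 2 * #X < Fintype.card F → p ^ 2 ≤ 4 * #X → #X ≤ C

/-- **EXB** [SX, SUB, LI] PROOF. `N = #X`, `M = min p (N/(6E))`. The elements `n₀ + n₁ α`, `n₀, n₁ < M ≤ p` (`r ≥ 2`, LI:
`M²` different elements) have cost at most `ME + 2ME ≤ N/2`, so `M² ≤ 2N` by SX. `M = p` is excluded by
`p² > 4N`. So `M = N/(6E)` (floor) and `(N/(6E) - 1)² ≤ 2N`, `N ≤ 300 E²`. -/
def EXB : Prop := ∀ E : ℕ, 1 ≤ E → ∃ C : ℕ, ∀ (F : Type) [Field F] [Fintype F] [DecidableEq F]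
  (α : F) (X : Finset F) (p r : ℕ) [CharP F p], p.Prime → Fintype.card F = p ^ r → 2 ≤ r → Gen α →
  Inv X α E → 4 * #X < p ^ 2 → #X ≤ C

/-- **EXC1** [SX, SUB] PROOF. `N = #X ≥ C = 64E²`, `A = N/(4E)` (floor), `D = 8E`. The elements `n₀ + n₁α`,
`n₀ ≤ A`, `n₁ ≤ D`, have cost at most `AE + 2DE ≤ N/4 + 16E² ≤ N/2`; `(A+1)(D+1) > 2N`, so by SX two of them are
equal: `(n₁ - n₁')α = n₀' - n₀`. `n₁ ≠ n₁'` since `A < N < p`. Take `d = |n₁ - n₁'|`, `a = ±(n₀' - n₀)`; divide by the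
gcd (a positive integer `≤ 8E < p`, invertible in `F`). -/
def EXC1 : Prop := ∀ E : ℕ, 1 ≤ E → ∃ C : ℕ, ∀ (F : Type) [Field F] [Fintype F] [DecidableEq F]
  (α : F) (X : Finset F) (p : ℕ) [CharP F p], p.Prime → Fintype.card F = p → Gen α →
  Inv X α E → 4 * #X < p → C ≤ #X →
  ∃ (a : ℤ) (d : ℕ), 1 ≤ d ∧ d ≤ 8 * E ∧ 4 * E * |a| ≤ #X ∧ IsCoprime a (d : ℤ) ∧ (d : F) * α = a

/-- **EXC2** [SX, SUB] PROOF. Let `N = #X`, suppose `|a| > 32E`. Let `m₁ = min (N/(8E)) (p/|a| - d)` (floors). The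
elements `n₀ + n₁α`, `n₀ < |a|`, `n₁ < m₁`, have cost `≤ |a|E + 2Em₁ ≤ N/4 + N/4`. They are different: multiply
by `d`, `d(n₀-n₀') + a(n₁-n₁') ≡ 0` modulo `p` with absolute value `< d|a| + |a|m₁ ≤ p`, so it is `0`, `a ∣ n₀-n₀'`
by coprimality, `n₀ = n₀'`, `n₁ = n₁'`. So `|a| m₁ ≤ 2N` (SX). If `m₁ = N/(8E) ≥ N/(16E)` this contradicts `|a| > 32E`.
Otherwise `|a| m₁ > p - (1+d)|a| ≥ p - (8E+1)N/(4E) ≥ p - 3N > 2N`, contradiction (`5N < p`). (`N ≥ 8E`,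
`a ≠ 0` since `α ≠ 0`.) -/
def EXC2 : Prop := ∀ E : ℕ, 1 ≤ E → ∃ C : ℕ, ∀ (F : Type) [Field F] [Fintype F] [DecidableEq F]
  (α : F) (X : Finset F) (p : ℕ) [CharP F p] (a : ℤ) (d : ℕ), p.Prime → Fintype.card F = p →
  Gen α → Inv X α E → 5 * #X < p → C ≤ #X → 1 ≤ d → d ≤ 8 * E → 4 * E * |a| ≤ #X →
  IsCoprime a (d : ℤ) → (d : F) * α = a → |a| ≤ 32 * E

/-- **EXC3** [SX, SUB] PROOF. `d γ = a`, `d < |a| ≤ 32E`, `gcd = 1`. `N = #X ≥ C`. Let `κ` be minimal with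
`|a|^κ > 2N`; so `|a|^κ ≤ 2N|a|`, `2^(κ-1) ≤ 2N`. The elements `∑_{k<κ} n k γ^k`, `n k < |a|`, have cost at most
`∑ |a|E(1+k) ≤ 32E²κ² ≤ N/2` for `N ≥ C(E)`. They are different: multiply by `d^(κ-1)`:
`Z(n) = ∑_{k<κ} n k a^k d^(κ-1-k)`, `|Z(n)| ≤ (|a|-1) ∑ |a|^k (|a|-1)^(κ-1-k) ≤ |a|^(κ+1)`, so two of them differ by less
than `2|a|^(κ+1) + 1 ≤ 4N|a|² + 1 ≤ p` and if they are congruent modulo `p` they are equal; then modulo `a`: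
`n 0 d^(κ-1) ≡ n' 0 d^(κ-1)`, so `n 0 = n' 0`, divide by `a`, induction. So `|a|^κ ≤ 2N` by SX, contradiction. -/
def EXC3 : Prop := ∀ E : ℕ, 1 ≤ E → ∃ C : ℕ, ∀ (F : Type) [Field F] [Fintype F] [DecidableEq F]
  (γ : F) (X : Finset F) (p : ℕ) [CharP F p] (a : ℤ) (d : ℕ), p.Prime → Fintype.card F = p →
  γ ≠ 0 → X.Nonempty → (∀ k : ℕ, #(X.image (· + γ ^ k) \ X) ≤ E * (1 + k)) →
  5000 * E ^ 2 * #X < p → 1 ≤ d → (d : ℤ) < |a| → |a| ≤ 32 * E → IsCoprime a (d : ℤ) →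
  (d : F) * γ = a → #X ≤ C

/-- **EXP** [EXA, EXB, EXC1, EXC2, EXC3] PROOF. `δ = 1/(5001E²)`, `E ≥ 1` WLOG (replace `0` by `1`); `X` nonempty. `q = p^r`. If `p² ≤ 4#X`: EXA. If
`p² > 4#X`, `r ≥ 2`: EXB. If `r = 1`: EXC1, EXC2 give `dα = a`, `|a| ≤ 32E`, `d ≤ 8E`. `α ≠ ±1` (else `q ≤ 3`), so
`|a| ≠ d` (coprime, `|a| = d` means `d = 1`, `α = ±1`), `a ≠ 0`. If `|a| > d`: EXC3 with `γ = α`. If `|a| < d`: EXC3 with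
`γ = α⁻¹`, `|a| γ = ±d`. The constant is the maximum of all constants. -/
def EXP : Prop := ∀ E : ℕ, ∃ (C : ℕ) (δ : ℝ), 0 < δ ∧ ∀ (F : Type) [Field F] [Fintype F]
  [DecidableEq F] (α : F) (X : Finset F), Gen α → Inv X α E →
  (#X : ℝ) ≤ δ * Fintype.card F → #X ≤ C

/-- **LEN** PROOF. `(STX) \ X ⊆ S(TX \ X) ∪ (SX \ X)`. `#(T⁻¹X \ X) = #(X \ TX) = #(TX \ X)` since `#TX = #X`. -/
def LEN : Prop := ∀ (F : Type) [DecidableEq F] (X : Finset F) (S T : Equiv.Perm F),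
  #(X.image (S * T) \ X) ≤ #(X.image S \ X) + #(X.image T \ X) ∧
  #(X.image (T⁻¹ : Equiv.Perm F) \ X) = #(X.image T \ X)

/-- **DOWNW** [EXP, LEN, IND] PROOF. Put `E = 4C + 3`; `C', δ₀` of EXP, `δ = δ₀/2`, `N` large. Let `R` be the set of the
classes modulo `p` of `t, …, t+n-1` (`n ≤ p-1` different classes), `X = F \ R`, `#X = p - n ≤ δ(p-1) + 1 ≤ δ₀p`. Translation
by `1`: `(X+1) \ X ⊆ {t}`, cost `≤ 1`. Multiplication by `g`: let `G' = {c g^i : s ≤ i < s+n}` (`n` different elements),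
`G = F \ G'`, `#G = #X`. All but at most `C` elements of `G'` are in `R` (the dot `(i, r)` of the column `i` is in `Wt`, so
`c g^i = r`). So `#(X \ G) = #(G' \ R) ≤ C` and `#(G \ X) ≤ C`; `#(gG \ G) = #(G' \ gG') ≤ 1`. So `#(gX \ X) ≤ 2C + 1`.
Translation by `g^k` is `g^k ∘ (translation by 1) ∘ g^(-k)`, LEN: cost `≤ 1 + 2|k|(2C+1) ≤ E(1+|k|)`. EXP: `#X ≤ C'`, so
`p - 1 ≤ n + C'`. -/
def DOWNW : Prop := ∀ C : ℕ, ∃ (C' N : ℕ) (δ : ℝ), 0 < δ ∧ ∀ (p : ℕ) [Fact p.Prime] (g c : ZMod p),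
  N ≤ p → Gen g → c ≠ 0 → Down (Wt p g c) (p - 1) δ C C'

/-- **DOWNG** [EXP, LEN, IND] PROOF. Put `E = 4C + 6`; `C', δ₀` of EXP, `δ = δ₀/2`, `N` large. Let
`X' = {α^i : s ≤ i < s+n}`, `Y' = {β^j : t ≤ j < t+n}` (`n ≤ q-2` different elements each), `X = F \ X'`, `Y = F \ Y'`,
`#X = #Y = q - n ≤ δ₀ q`. For all but `C` elements `x ∈ X'`, `1 - x ∈ Y'` (the dot of the column is in `Gt`). With
`σ x = 1 - x`: `#(σX \ Y) = #(Y' \ σX') = #(σX' \ Y') ≤ C`, `#(Y \ σX) ≤ C`. `T₁ x = αx`: `#(T₁X \ X) ≤ 1` (`X' \ αX'` is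
at most `{α^s}`), same for `β` and `Y`. `T₂ x = 1 - β(1-x)`: `#(T₂X \ X) ≤ 2C + 1`. `T₁T₂ = (translation by τ) T₂T₁`,
`τ = (α-1)(1-β) ≠ 0`. So (LEN) the translation by `τ` costs at most `4C + 4`, the translation by `α^k τ`, equal to
`T₁^k (translation by τ) T₁^(-k)`, at most `4C + 4 + 2|k| ≤ E(1+|k|)`. Replace `X` by `τ⁻¹X` and use EXP. -/
def DOWNG : Prop := ∀ C : ℕ, ∃ (C' N : ℕ) (δ : ℝ), 0 < δ ∧ ∀ (F : Type) [Field F] [Fintype F]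
  (α β : F), N ≤ Fintype.card F → Gen α → Gen β →
  Down (Gt α β) (Fintype.card F - 2) δ C C'

/-! ## Part F. Assembly -/

/-- **KILL** PROOF. `B = dots f s t` has: `w₁ - P = w₃ - w₂` with all four in `B` implies `w₁ = P` or `w₁ = w₃` (Costas
property; if the first coordinates of `w₁`, `P` agree then `w₁ = P`; orient the vectors so that the column difference is
positive). So every `(w₁, w₂) ∈ sols A P`, `w₃ = w₁ + w₂ - P`, has one of `w₁, w₂, w₃` in `A \ B`: otherwise `w₁ = P ∈ A` or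
`w₁ = w₃`, `w₂ = P ∈ A`. For given `w₁` there is at most one solution (`w₃ - w₂ = w₁ - P ≠ 0` and `A` is Sidon), same for
`w₂`, and for given `w₃` at most two (`w₁ + w₂` is given; Sidon: `w₁ - w₁' = w₂' - w₂` so `w₁ = w₁'` or `w₁ = w₂'`). -/
def KILL : Prop := ∀ (A : Finset (ℤ × ℤ)) (n : ℕ) (f : Equiv.Perm (Fin n)) (s t : ℤ) (P : ℤ × ℤ),
  IsCostas f → IsSid A → P ∈ dots f s t → P ∉ A →
  #(sols A P) ≤ 4 * #(A \ dots f s t)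

/-- **ABS** [KILL] PROOF. `B = dots f s t`, `#(A \ B) = m - #(A ∩ B) ≤ δm`. Localisation: the columns of `B` are
`s, …, s+n-1`, those of `A ∩ B` are different and in `[0, m]`, so if `P ∈ B` has `P.1 < 0` then the columns `P.1, …, -1` and
those of `A ∩ B` are in the interval, `|P.1| ≤ n - (1-δ)m`; if `P.1 > m` then `P.1 - m ≤ n - (1-δ)m`; same for rows.
(1) Suppose `n ≥ m+1`. The rows `t, …, t+n-1` contain a multiple `v` of `m+1`, let `P = (u,v) ∈ B`. By localisation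
(`n ≤ 5m/4`, `δ ≤ 1/20`) `u, v ∈ [-3m/10, 13m/10]`, so `v ∈ {0, m+1}`; `P ∉ A` by the box. `blank`:
`#sols ≥ ηm > 4δm ≥ 4#(A\B)`, contradiction to KILL. (2) So `n ≤ m`. `S` = the dots of `B` not in `T`; they are not in `A`, by
localisation in the box with `δ ≤ ε`, and by KILL `#sols ≤ 4δm < ηm`. `exc`: `#S ≤ C`. (3) `Down`: `m ≤ n + C'`
(`(1-δ)m ≤ #(A ∩ B) ≤ n`). -/
def ABS : Prop := ∀ (A : Finset (ℤ × ℤ)) (T : Set (ℤ × ℤ)) (m m₁ : ℕ) (η ε δ : ℝ) (C C' : ℕ),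
  1 ≤ m → Good A T m m₁ η ε C → Down T m δ C C' → 0 < δ → δ ≤ ε → 4 * δ < η → δ ≤ 1 / 20 →
  Concl A T m δ (max C C')

/-- **MONO** PROOF. Immediate from the definitions (`Down`: the hypothesis `(1-δ)m ≤ n` for the smaller `δ` implies the
one for the larger `δ`). -/
def MONO : Prop := ∀ (A : Finset (ℤ × ℤ)) (T : Set (ℤ × ℤ)) (m : ℕ) (δ δ' : ℝ) (C C' D : ℕ),
  δ' ≤ δ → C ≤ C' → (Down T m δ D C → Down T m δ' D C') ∧ (Concl A T m δ C → Concl A T m δ' C')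

/-- **SWAP** PROOF. Apply the hypothesis to `f.symm` and `(t, s)`: `f.symm` is a Costas array (exchange the two
coordinates of the difference vectors; orient by the second coordinate) and `dots f.symm t s` is the image of
`dots f s t` under `Prod.swap`. -/
def SWAP : Prop := ∀ (A : Finset (ℤ × ℤ)) (T : Set (ℤ × ℤ)) (m : ℕ) (δ : ℝ) (C : ℕ),
  Concl A T m δ C → Concl (A.image Prod.swap) (Prod.swap ⁻¹' T) m δ C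

end Pool.Agent.Helper74.CO
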