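import Mathlib

/-!
# Project CO (MP_c5396e_co): isolation of the algebraic Costas arrays. Definitions
-/

set_option autoImplicit false

namespace Pool.Agent.Helper74.CO

open Finset

/-! ### The objects of the theorem -/

/-- `f` is a Costas array of order `n` -/
def IsCostas {n : ℕ} (f : Equiv.Perm (Fin n)) : Prop :=
  ∀ i j k l : Fin n, j < i → l < k → ((f i : ℤ) - f j = (f k : ℤ) - f l) →
    ((i : ℤ) - j = (k : ℤ) - l) → i = k ∧ j = l

/-- the dots of `f`, translated by `(s, t)` -/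
def dots {n : ℕ} (f : Equiv.Perm (Fin n)) (s t : ℤ) : Finset (ℤ × ℤ) :=
  univ.image (fun i : Fin n => ((i : ℤ) + s, ((f i : Fin n) : ℤ) + t))

/-- every nonzero element of the field is a power of `α` (primitive element) -/
def Gen {F : Type} [Field F] (α : F) : Prop := ∀ x : F, x ≠ 0 → ∃ k : ℕ, α ^ k = x

/-- periodic Welch pattern -/
def Wt (p : ℕ) [Fact p.Prime] (g c : ZMod p) : Set (ℤ × ℤ) :=
  {P | c * g ^ P.1 = ((P.2 : ℤ) : ZMod p)}

open Classical in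
/-- Welch array, of order `p - 1` -/
noncomputable def Wa (p : ℕ) [Fact p.Prime] (g c : ZMod p) : Finset (ℤ × ℤ) :=
  ((Icc (0 : ℤ) ((p : ℤ) - 2)) ×ˢ (Icc (1 : ℤ) ((p : ℤ) - 1))).filter (· ∈ Wt p g c)

/-- periodic Golomb pattern -/
def Gt {F : Type} [Field F] (α β : F) : Set (ℤ × ℤ) := {P | α ^ P.1 + β ^ P.2 = 1}

open Classical in
/-- Golomb array, of order `q - 2` -/
noncomputable def Ga {F : Type} [Field F] [Fintype F] (α β : F) : Finset (ℤ × ℤ) :=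
  ((Icc (1 : ℤ) ((Fintype.card F : ℤ) - 2)) ×ˢ (Icc (1 : ℤ) ((Fintype.card F : ℤ) - 2))).filter
    (· ∈ Gt α β)

open Classical in
/-- the conclusion of the isolation theorem for a pattern `A` of order `m` with periodic
continuation `T` -/
def Concl (A : Finset (ℤ × ℤ)) (T : Set (ℤ × ℤ)) (m : ℕ) (δ : ℝ) (C : ℕ) : Prop :=
  ∀ (n : ℕ) (f : Equiv.Perm (Fin n)) (s t : ℤ), IsCostas f → 4 * n ≤ 5 * m →
    (1 - δ) * m ≤ #(A ∩ dots f s t) →
    m ≤ n + C ∧ n ≤ m ∧ #((dots f s t).filter (· ∉ T)) ≤ C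

/-! ### Sidon sets and solutions -/

/-- Sidon set of the plane (all differences are different) -/
def IsSid (A : Finset (ℤ × ℤ)) : Prop :=
  ∀ a ∈ A, ∀ b ∈ A, ∀ c ∈ A, ∀ d ∈ A, a - b = c - d → a = b ∨ a = c

/-- solutions of `w + w' = P + w''` in `A` -/
def sols (A : Finset (ℤ × ℤ)) (P : ℤ × ℤ) : Finset ((ℤ × ℤ) × (ℤ × ℤ)) :=
  (A ×ˢ A).filter (fun w => w.1 + w.2 - P ∈ A)

/-- what is proved of the algebraic patterns: `m₁` is the period of the first coordinate, `m + 1`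
the period of the second -/
structure Good (A : Finset (ℤ × ℤ)) (T : Set (ℤ × ℤ)) (m m₁ : ℕ) (η ε : ℝ) (C : ℕ) : Prop where
  hm : m₁ = m ∨ m₁ = m + 1
  sub : ∀ P ∈ A, P ∈ T
  box : ∀ P ∈ A, 0 ≤ P.1 ∧ P.1 < m₁ ∧ 1 ≤ P.2 ∧ P.2 ≤ m
  card : #A = m
  sidon : IsSid A
  blank : ∀ u v : ℤ, -(3 / 10 : ℝ) * m₁ ≤ u → (u : ℝ) ≤ 13 / 10 * m₁ → v = 0 ∨ v = m + 1 →
    η * m ≤ #(sols A (u, v))
  exc : ∀ S : Finset (ℤ × ℤ), (∀ P ∈ S, P ∉ T ∧ -ε * m ≤ P.1 ∧ (P.1 : ℝ) ≤ (1 + ε) * m ∧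
    -ε * m ≤ P.2 ∧ (P.2 : ℝ) ≤ (1 + ε) * m ∧ (#(sols A P) : ℝ) < η * m) → #S ≤ C

open Classical in
/-- a permutation of order `n ≤ m` almost all of whose dots lie in `T` has order `≥ m - C'` -/
def Down (T : Set (ℤ × ℤ)) (m : ℕ) (δ : ℝ) (C C' : ℕ) : Prop :=
  ∀ (n : ℕ) (f : Equiv.Perm (Fin n)) (s t : ℤ), n ≤ m → (1 - δ) * m ≤ n →
    #((dots f s t).filter (· ∉ T)) ≤ C → m ≤ n + C'

/-! ### Fejér weights and equidistribution -/

/-- `e(t) = exp(2πit)` -/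
noncomputable def ex (t : ℝ) : ℂ := Complex.exp (2 * Real.pi * t * Complex.I)

/-- Fejér weight -/
noncomputable def fw (K : ℕ) (t : ℝ) : ℝ := ‖∑ j ∈ range K, ex (j * t)‖ ^ 2 / (K : ℝ) ^ 2

/-- exponential sums of three functions are small -/
def Eq3 {ι : Type} (X : Finset ι) (a b c : ι → ℝ) (K : ℕ) (κ : ℝ) : Prop :=
  ∀ j k l : ℤ, |j| < K → |k| < K → |l| < K → ¬ (j = 0 ∧ k = 0 ∧ l = 0) →
    ‖∑ x ∈ X, ex (j * a x + k * b x + l * c x)‖ ≤ κ * #X

/-- exponential sums of two functions are small -/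
def Eq2 {ι : Type} (X : Finset ι) (a b : ι → ℝ) (K : ℕ) (κ : ℝ) : Prop :=
  ∀ j k : ℤ, |j| < K → |k| < K → ¬ (j = 0 ∧ k = 0) →
    ‖∑ x ∈ X, ex (j * a x + k * b x)‖ ≤ κ * #X

/-- values in `[0,1)` -/
def U01 {ι : Type} (X : Finset ι) (a : ι → ℝ) : Prop := ∀ x ∈ X, 0 ≤ a x ∧ a x < 1

/-- both no-carry conditions, general case -/
def Bump1 (K : ℕ) (κ η ε : ℝ) : Prop := ∀ (ι : Type) (X : Finset ι) (a b c d : ι → ℝ) (u v : ℝ),
  U01 X a → U01 X b → U01 X c → U01 X d → Eq3 X a b c K κ → Eq2 X c d K κ →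
  -(3 / 10) ≤ u → u ≤ 13 / 10 → -ε ≤ v → v ≤ 1 + ε →
  η * #X ≤ #(X.filter (fun x => (0 ≤ a x + b x - u ∧ a x + b x - u < 1) ∧
    (0 ≤ c x + d x - v ∧ c x + d x - v < 1)))

/-- one no-carry condition -/
def Bump2 (K : ℕ) (κ η ε : ℝ) : Prop := ∀ (ι : Type) (X : Finset ι) (c d : ι → ℝ) (v : ℝ),
  U01 X c → U01 X d → Eq2 X c d K κ → -ε ≤ v → v ≤ 1 + ε →
  η * #X ≤ #(X.filter (fun x => 0 ≤ c x + d x - v ∧ c x + d x - v < 1))

/-- both no-carry conditions for `y = x` -/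
def Bump3 (K : ℕ) (κ η : ℝ) : Prop := ∀ (ι : Type) (X : Finset ι) (a c : ι → ℝ) (u v : ℝ),
  U01 X a → U01 X c → Eq2 X a c K κ → (u = 0 ∨ u = 1) → (v = 0 ∨ v = 1) →
  η * #X ≤ #(X.filter (fun x => (0 ≤ a x + a x - u ∧ a x + a x - u < 1) ∧
    (0 ≤ c x + c x - v ∧ c x + c x - v < 1)))

/-! ### Indices, Möbius maps, coordinates -/

/-- index of `x` with respect to `g` -/
noncomputable def ind {F : Type} [Field F] (g x : F) : ℕ := sInf {i : ℕ | g ^ i = x}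

/-- Welch: the involution -/
def Mw {F : Type} [Field F] (e v x : F) : F := e * (x - v) / (x - e)

/-- Welch: admissible `x` -/
def Xw {F : Type} [Field F] [Fintype F] [DecidableEq F] (e v : F) : Finset F :=
  univ.filter (fun x => x ≠ 0 ∧ x ≠ v ∧ x ≠ e)

/-- Welch: first coordinate divided by `p - 1` -/
noncomputable def aw (p : ℕ) [Fact p.Prime] (g c x : ZMod p) : ℝ :=
  (ind g (x / c) : ℝ) / ((p : ℝ) - 1)

/-- Welch: second coordinate divided by `p` -/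
noncomputable def cw (p : ℕ) [Fact p.Prime] (x : ZMod p) : ℝ := (x.val : ℝ) / p

/-- Golomb: the involution -/
def Mg {F : Type} [Field F] (e f x : F) : F := e * (x - (1 - f)) / ((e + f) * x - e)

/-- Golomb: admissible `x` -/
def Xg {F : Type} [Field F] [Fintype F] [DecidableEq F] (e f : F) : Finset F :=
  univ.filter (fun x => x ≠ 0 ∧ x ≠ 1 ∧ x ≠ 1 - f ∧ x ≠ e ∧ (e + f) * x ≠ e)

/-- Golomb: first coordinate divided by `q - 1` -/
noncomputable def ag {F : Type} [Field F] [Fintype F] (α x : F) : ℝ :=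
  (ind α x : ℝ) / ((Fintype.card F : ℝ) - 1)

/-- Golomb: second coordinate divided by `q - 1` -/
noncomputable def cg {F : Type} [Field F] [Fintype F] (β x : F) : ℝ :=
  (ind β (1 - x) : ℝ) / ((Fintype.card F : ℝ) - 1)

/-! ### Almost invariant sets -/

/-- `X` is almost invariant under the translations by the powers of `α` -/
def Inv {F : Type} [Field F] [DecidableEq F] (X : Finset F) (α : F) (E : ℕ) : Prop :=
  ∀ k : ℤ, #(X.image (· + α ^ k) \ X) ≤ E * (1 + k.natAbs)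

end Pool.Agent.Helper74.CO
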