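import Pool.Agent.Helper74.CO.Goals

set_option autoImplicit false

namespace Pool.Agent.Helper74.CO

open Finset

theorem Inv.mono {F : Type} [Field F] [DecidableEq F] {X : Finset F} {α : F} {E E' : ℕ}
    (h : Inv X α E) (hE : E ≤ E') : Inv X α E' := fun k =>
  (h k).trans (Nat.mul_le_mul_right _ hE)

theorem t_EXP (hA : EXA) (hB : EXB) (h1 : EXC1) (h2 : EXC2) (h3 : EXC3) : EXP := by
  classical
  intro E₀
  obtain ⟨E, hE₀, hE⟩ : ∃ E, E₀ ≤ E ∧ 1 ≤ E := ⟨max E₀ 1, le_max_left _ _, le_max_right _ _⟩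
  obtain ⟨CA, hA⟩ := hA E hE
  obtain ⟨CB, hB⟩ := hB E hE
  obtain ⟨C1, h1⟩ := h1 E hE
  obtain ⟨C2, h2⟩ := h2 E hE
  obtain ⟨C3, h3⟩ := h3 E hE
  have hEr : (1 : ℝ) ≤ E := by exact_mod_cast hE
  refine ⟨max (max CA CB) (max (max C1 C2) C3), 1 / (5001 * E ^ 2), by positivity, ?_⟩
  intro F _ _ _ α X hα hI₀ hX
  have hI : Inv X α E := hI₀.mono hE₀
  rcases X.eq_empty_or_nonempty with rfl | hne
  · simp
  have hN : 1 ≤ #X := hne.card_pos
  -- 5001 E² N ≤ q
  have hq : 5001 * E ^ 2 * #X ≤ Fintype.card F := by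
    have : (5001 * E ^ 2 * #X : ℝ) ≤ Fintype.card F := by
      have h5 : (0 : ℝ) < 5001 * E ^ 2 := by positivity
      calc (5001 * E ^ 2 * #X : ℝ) ≤ 5001 * E ^ 2 * (1 / (5001 * E ^ 2) * Fintype.card F) :=
            mul_le_mul_of_nonneg_left hX h5.le
        _ = Fintype.card F := by field_simp
    exact_mod_cast this
  have hE2 : 1 ≤ E ^ 2 := Nat.one_le_pow _ _ hE
  have hq' : 5001 * #X ≤ Fintype.card F := by
    refine le_trans ?_ hq
    have : 5001 * 1 ≤ 5001 * E ^ 2 := Nat.mul_le_mul_left _ hE2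
    exact Nat.mul_le_mul_right _ this
  have hqs : 5000 * E ^ 2 * #X < Fintype.card F := by
    refine lt_of_lt_of_le ?_ hq
    have : 0 < E ^ 2 * #X := Nat.mul_pos (by omega) (by omega)
    nlinarith
  obtain ⟨p, hp⟩ := CharP.exists F
  obtain ⟨r, hpp, hcard⟩ := FiniteField.card F p
  by_cases c1 : p ^ 2 ≤ 4 * #X
  · have := hA F α X p r hpp hcard hα hI (by omega) c1
    exact this.trans ((le_max_left _ _).trans (le_max_left _ _))
  by_cases c2 : 2 ≤ (r : ℕ)
  · have := hB F α X p r hpp hcard c2 hα hI (by omega)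
    exact this.trans ((le_max_right _ _).trans (le_max_left _ _))
  have hr : (r : ℕ) = 1 := by
    have := r.pos
    omega
  rw [hr, pow_one] at hcard
  by_contra hcon
  have hcon' := not_le.1 hcon
  have k1 : C1 ≤ #X := by
    have : C1 ≤ max (max CA CB) (max (max C1 C2) C3) :=
      (le_max_left _ _).trans ((le_max_left _ _).trans (le_max_right _ _))
    omega
  have k2 : C2 ≤ #X := by
    have : C2 ≤ max (max CA CB) (max (max C1 C2) C3) :=
      (le_max_right _ _).trans ((le_max_left _ _).trans (le_max_right _ _))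
    omega
  have k3 : ¬ #X ≤ C3 := by
    have : C3 ≤ max (max CA CB) (max (max C1 C2) C3) :=
      (le_max_right _ _).trans (le_max_right _ _)
    omega
  obtain ⟨a, d, hd1, hd2, ha, hco, hda⟩ := h1 F α X p hpp hcard hα hI (by omega) k1
  have ha32 := h2 F α X p a d hpp hcard hα hI (by omega) k2 hd1 hd2 ha hco hda
  -- α² ≠ 1
  have hsq : α ^ 2 ≠ 1 := by
    intro h
    have hall : ∀ x : F, x ∈ ({0, 1, α} : Finset F) := by
      intro x
      by_cases hx : x = 0
      · simp [hx]
      · obtain ⟨k, hk⟩ := hα x hx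
        rcases Nat.even_or_odd' k with ⟨j, hj | hj⟩
        · rw [hj, pow_mul, h, one_pow] at hk
          simp [← hk]
        · rw [hj, pow_succ, pow_mul, h, one_pow, one_mul] at hk
          simp [← hk]
    have : Fintype.card F ≤ 3 := by
      have h4 : (univ : Finset F) ⊆ {0, 1, α} := fun x _ => hall x
      have := card_le_card h4
      rw [card_univ] at this
      exact this.trans (card_le_three)
    omega
  have hα0 : α ≠ 0 := by
    rintro rfl
    have hall : ∀ x : F, x ∈ ({0, 1} : Finset F) := by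
      intro x
      by_cases hx : x = 0
      · simp [hx]
      · obtain ⟨k, hk⟩ := hα x hx
        rcases Nat.eq_zero_or_pos k with h0 | h0
        · rw [h0, pow_zero] at hk; simp [← hk]
        · rw [zero_pow (by omega)] at hk; exact absurd hk.symm hx
    have : Fintype.card F ≤ 2 := by
      have h4 : (univ : Finset F) ⊆ {0, 1} := fun x _ => hall x
      have := card_le_card h4
      rw [card_univ] at this
      exact this.trans (card_le_two)
    omega
  have hdp : (d : F) ≠ 0 := by
    intro h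
    rw [CharP.cast_eq_zero_iff F p] at h
    have := Nat.le_of_dvd (by omega) h
    have : 8 * E < p := by
      have h5 : 5000 * E ^ 2 * #X ≥ 5000 * E ^ 2 := Nat.le_mul_of_pos_right _ (by omega)
      nlinarith
    omega
  have ha0 : a ≠ 0 := by
    rintro rfl
    simp only [Int.cast_zero, mul_eq_zero] at hda
    rcases hda with h | h
    · exact hdp h
    · exact hα0 h
  rcases lt_trichotomy |a| (d : ℤ) with hlt | heq | hgt
  · -- γ = α⁻¹
    obtain ⟨a', hex1, hex2, hex3⟩ : ∃ a' : ℤ, |a'| = d ∧ ((a.natAbs : ℕ) : F) * α⁻¹ = a' ∧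
        IsCoprime a' ((a.natAbs : ℕ) : ℤ) := by
      have hinv : (a : F) * α⁻¹ = d := by
        rw [← hda, mul_assoc, mul_inv_cancel₀ hα0, mul_one]
      rcases le_or_gt 0 a with h | h
      · refine ⟨d, by simp, ?_, ?_⟩
        · have : ((a.natAbs : ℕ) : F) = (a : F) := by
            rw [← Int.cast_natCast, Int.natAbs_of_nonneg h]
          rw [this, hinv]; simp
        · rw [Int.natAbs_of_nonneg h]; exact hco.symm
      · refine ⟨-d, by simp, ?_, ?_⟩
        · have : ((a.natAbs : ℕ) : F) = -(a : F) := by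
            rw [← Int.cast_natCast, Int.ofNat_natAbs_of_nonpos h.le]; push_cast; rfl
          rw [this, neg_mul, hinv]; simp
        · rw [Int.ofNat_natAbs_of_nonpos h.le]
          exact (hco.symm.neg_left).neg_right
    have hna : 1 ≤ a.natAbs := Int.natAbs_pos.2 ha0
    have hab : ((a.natAbs : ℕ) : ℤ) = |a| := Int.natCast_natAbs a
    refine k3 (h3 F α⁻¹ X p a' a.natAbs hpp hcard (inv_ne_zero hα0) hne ?_
      (by rw [← hcard]; exact hqs) hna ?_ ?_ hex3 hex2)
    · intro k
      have := hI (-(k : ℤ))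
      simp only [zpow_neg, zpow_natCast, Int.natAbs_neg, Int.natAbs_natCast] at this
      simpa only [inv_pow] using this
    · rw [hex1, hab]; exact hlt
    · rw [hex1]
      have : (d : ℤ) ≤ 8 * E := by exact_mod_cast hd2
      omega
  · exfalso
    have hd' : (d : ℤ) ∣ a := by
      rw [← heq]; exact (abs_dvd _ _).2 (dvd_refl a)
    have hu : IsUnit (d : ℤ) := hco.isUnit_of_dvd' hd' (dvd_refl _)
    have hd1' : d = 1 := by
      have := Int.isUnit_iff.1 hu
      omega
    rw [hd1'] at heq hda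
    have : a = 1 ∨ a = -1 := by
      rcases abs_cases a with h | h <;> omega
    apply hsq
    rcases this with h | h
    · rw [h] at hda
      simp at hda
      rw [hda, one_pow]
    · rw [h] at hda
      simp at hda
      rw [hda]; ring
  · refine k3 (h3 F α X p a d hpp hcard hα0 hne ?_ (by rw [← hcard]; exact hqs) hd1 hgt ha32 hco hda)
    intro k
    have := hI (k : ℤ)
    simpa only [zpow_natCast, Int.natAbs_natCast] using this

end Pool.Agent.Helper74.CO
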