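import Pool.Agent.Helper74.CO.Small

set_option autoImplicit false

namespace Pool.Agent.Helper74.CO

open Finset

/-- the dots of `f`, translated by `(s, t)`, as a set -/
def dotSet {n : ℕ} (f : Equiv.Perm (Fin n)) (s t : ℤ) : Set (ℤ × ℤ) :=
  {P | ∃ i : Fin n, P = ((i : ℤ) + s, ((f i : Fin n) : ℤ) + t)}

/-- Welch arrays -/
def IsWelch (m : ℕ) (A T : Set (ℤ × ℤ)) : Prop :=
  ∃ (p : ℕ) (_ : Fact p.Prime) (g c : ZMod p), Gen g ∧ c ≠ 0 ∧ p = m + 1 ∧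
    T = {P : ℤ × ℤ | c * g ^ P.1 = ((P.2 : ℤ) : ZMod p)} ∧
    A = {P : ℤ × ℤ | P ∈ T ∧ 0 ≤ P.1 ∧ P.1 < m ∧ 1 ≤ P.2 ∧ P.2 ≤ m}

/-- Golomb arrays -/
def IsGolomb (m : ℕ) (A T : Set (ℤ × ℤ)) : Prop :=
  ∃ (F : Type) (_ : Field F) (_ : Fintype F) (α β : F), Gen α ∧ Gen β ∧ Fintype.card F = m + 2 ∧
    T = {P : ℤ × ℤ | α ^ P.1 + β ^ P.2 = 1} ∧
    A = {P : ℤ × ℤ | P ∈ T ∧ 1 ≤ P.1 ∧ P.1 ≤ m ∧ 1 ≤ P.2 ∧ P.2 ≤ m}

/-- algebraic arrays -/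
def IsAlgebraic (m : ℕ) (A T : Set (ℤ × ℤ)) : Prop :=
  IsWelch m A T ∨ IsWelch m (Prod.swap ⁻¹' A) (Prod.swap ⁻¹' T) ∨ IsGolomb m A T

theorem coe_dots {n : ℕ} (f : Equiv.Perm (Fin n)) (s t : ℤ) :
    ((dots f s t : Finset (ℤ × ℤ)) : Set (ℤ × ℤ)) = dotSet f s t := by
  ext P
  simp only [mem_coe, mem_dots, dotSet, Set.mem_ofPred_eq]
  exact ⟨fun ⟨i, h⟩ => ⟨i, h.symm⟩, fun ⟨i, h⟩ => ⟨i, h.symm⟩⟩

/-- from finsets to sets -/
theorem concl_set {A : Finset (ℤ × ℤ)} {T : Set (ℤ × ℤ)} {m : ℕ} {δ : ℝ} {C : ℕ}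
    (h : Concl A T m δ C) (n : ℕ) (f : Equiv.Perm (Fin n)) (s t : ℤ) (hf : IsCostas f)
    (hn : 4 * n ≤ 5 * m) (hA : (1 - δ) * m ≤ ((A : Set (ℤ × ℤ)) ∩ dotSet f s t).ncard) :
    m ≤ n + C ∧ n ≤ m ∧ (dotSet f s t \ T).ncard ≤ C := by
  classical
  rw [← coe_dots, ← Finset.coe_inter, Set.ncard_coe_finset] at hA
  have := h n f s t hf hn hA
  refine ⟨this.1, this.2.1, ?_⟩
  have e : (dotSet f s t \ T) = (((dots f s t).filter (· ∉ T) : Finset (ℤ × ℤ)) : Set (ℤ × ℤ)) := by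
    ext P
    rw [← coe_dots]
    simp
  rw [e, Set.ncard_coe_finset]
  convert this.2.2

theorem main_of (hW : GOODW) (hG : GOODG) (dW : DOWNW) (dG : DOWNG) (hA : ABS) :
    ∃ (δ : ℝ) (C N : ℕ), 0 < δ ∧ ∀ (m : ℕ) (A T : Set (ℤ × ℤ)), N ≤ m → IsAlgebraic m A T →
      ∀ (n : ℕ) (f : Equiv.Perm (Fin n)) (s t : ℤ), IsCostas f → 4 * n ≤ 5 * m →
        (1 - δ) * m ≤ (A ∩ dotSet f s t).ncard →
        m ≤ n + C ∧ n ≤ m ∧ (dotSet f s t \ T).ncard ≤ C := by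
  classical
  obtain ⟨η₁, ε₁, C₁, N₁, hη₁, hε₁, hW⟩ := hW
  obtain ⟨η₂, ε₂, C₂, N₂, hη₂, hε₂, hG⟩ := hG
  obtain ⟨D₁, M₁, δ₁, hδ₁, dW⟩ := dW C₁
  obtain ⟨D₂, M₂, δ₂, hδ₂, dG⟩ := dG C₂
  set δ : ℝ := min (1 / 20) (min (min (η₁ / 5) (η₂ / 5)) (min (min ε₁ ε₂) (min δ₁ δ₂))) with hδ
  have h0 : 0 < δ := by positivity
  have l0 : δ ≤ 1 / 20 := min_le_left _ _
  have l1 : δ ≤ η₁ / 5 := (min_le_right _ _).trans ((min_le_left _ _).trans (min_le_left _ _))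
  have l2 : δ ≤ η₂ / 5 := (min_le_right _ _).trans ((min_le_left _ _).trans (min_le_right _ _))
  have l3 : δ ≤ ε₁ := (min_le_right _ _).trans ((min_le_right _ _).trans
    ((min_le_left _ _).trans (min_le_left _ _)))
  have l4 : δ ≤ ε₂ := (min_le_right _ _).trans ((min_le_right _ _).trans
    ((min_le_left _ _).trans (min_le_right _ _)))
  have l5 : δ ≤ δ₁ := (min_le_right _ _).trans ((min_le_right _ _).trans
    ((min_le_right _ _).trans (min_le_left _ _)))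
  have l6 : δ ≤ δ₂ := (min_le_right _ _).trans ((min_le_right _ _).trans
    ((min_le_right _ _).trans (min_le_right _ _)))
  set C : ℕ := max (max C₁ D₁) (max C₂ D₂) with hC
  have cW : ∀ (p : ℕ) [Fact p.Prime] (g c : ZMod p), max 2 (max N₁ M₁) ≤ p → Gen g → c ≠ 0 →
      Concl (Wa p g c) (Wt p g c) (p - 1) δ C := by
    intro p _ g c hp hg hc
    have a1 := hW p g c (by omega) hg hc
    have a2 := (t_MONO (Wa p g c) (Wt p g c) (p - 1) δ₁ δ D₁ D₁ C₁ l5 le_rfl).1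
      (dW p g c (by omega) hg hc)
    have a3 := hA _ _ _ _ η₁ ε₁ δ C₁ D₁ (by omega) a1 a2 h0 l3 (by linarith) l0
    exact (t_MONO (Wa p g c) (Wt p g c) (p - 1) δ δ _ C 0 le_rfl (le_max_left _ _)).2 a3
  have cG : ∀ (F : Type) [Field F] [Fintype F] (α β : F), max 3 (max N₂ M₂) ≤ Fintype.card F →
      Gen α → Gen β → Concl (Ga α β) (Gt α β) (Fintype.card F - 2) δ C := by
    intro F _ _ α β hp hα hβ
    have a1 := hG F α β (by omega) hα hβ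
    have a2 := (t_MONO (Ga α β) (Gt α β) (Fintype.card F - 2) δ₂ δ D₂ D₂ C₂ l6 le_rfl).1
      (dG F α β (by omega) hα hβ)
    have a3 := hA _ _ _ _ η₂ ε₂ δ C₂ D₂ (by omega) a1 a2 h0 l4 (by linarith) l0
    exact (t_MONO (Ga α β) (Gt α β) (Fintype.card F - 2) δ δ _ C 0 le_rfl (le_max_right _ _)).2 a3
  have wSet : ∀ (m : ℕ) (A T : Set (ℤ × ℤ)), max 2 (max N₁ M₁) ≤ m + 1 → IsWelch m A T →
      ∃ A' : Finset (ℤ × ℤ), (A' : Set (ℤ × ℤ)) = A ∧ Concl A' T m δ C := by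
    rintro m A T hm ⟨p, hp, g, c, hg, hc, rfl, rfl, rfl⟩
    refine ⟨Wa (m + 1) g c, ?_, ?_⟩
    · ext P
      simp only [Wa, Wt, coe_filter, mem_product, mem_Icc, Set.mem_ofPred_eq]
      push_cast
      constructor
      · rintro ⟨⟨⟨a, b⟩, c, d⟩, e⟩
        exact ⟨e, a, by omega, c, by omega⟩
      · rintro ⟨e, a, b, c, d⟩
        exact ⟨⟨⟨a, by omega⟩, c, by omega⟩, e⟩
    · have := cW (m + 1) g c hm hg hc
      simp only [Nat.add_sub_cancel] at this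
      exact this
  refine ⟨δ, C, max (max 2 (max N₁ M₁)) (max 3 (max N₂ M₂)), h0, ?_⟩
  intro m A T hm hAT n f s t hf hn hA'
  rcases hAT with h | h | h
  · obtain ⟨A', hA'', h'⟩ := wSet m A T (by omega) h
    rw [← hA''] at hA'
    exact concl_set h' n f s t hf hn hA'
  · obtain ⟨A', hA'', h1⟩ := wSet m _ _ (by omega) h
    have e1 : ((A'.image Prod.swap : Finset (ℤ × ℤ)) : Set (ℤ × ℤ)) = A := by
      rw [coe_image, hA'']
      ext ⟨x, y⟩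
      simp
    have h' := t_SWAP _ _ _ _ _ h1
    have e2 : Prod.swap ⁻¹' (Prod.swap ⁻¹' T) = T := by
      ext P; simp
    rw [e2] at h'
    rw [← e1] at hA'
    exact concl_set h' n f s t hf hn hA'
  · obtain ⟨F, hF, hF', α, β, hα, hβ, hq, rfl, rfl⟩ := h
    have h := cG F α β (by omega) hα hβ
    have e : Fintype.card F - 2 = m := by omega
    rw [e] at h
    have e1 : ((Ga α β : Finset (ℤ × ℤ)) : Set (ℤ × ℤ)) =
        {P : ℤ × ℤ | P ∈ {P : ℤ × ℤ | α ^ P.1 + β ^ P.2 = 1} ∧ 1 ≤ P.1 ∧ P.1 ≤ m ∧ 1 ≤ P.2 ∧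
          P.2 ≤ m} := by
      ext P
      simp only [Ga, Gt, coe_filter, mem_product, mem_Icc, Set.mem_ofPred_eq]
      rw [hq]
      push_cast
      constructor
      · rintro ⟨⟨⟨a, b⟩, c, d⟩, e⟩
        exact ⟨e, a, by omega, c, by omega⟩
      · rintro ⟨e, a, b, c, d⟩
        exact ⟨⟨⟨a, by omega⟩, c, by omega⟩, e⟩
    rw [← e1] at hA'
    exact concl_set h n f s t hf hn hA'

end Pool.Agent.Helper74.CO
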