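import Pool.Agent.Helper74.CO.Goals

/-!
# Project CO (MP_c5396e_co), stage 2: all dots lie on the periodic continuation

Pairwise equidistribution of the four coordinates `(a, b, c, d)` is enough: a covariance argument
shows that the two no-carry conditions hold together for a positive proportion of the `x`, for every
dot `P` which is not on the periodic continuation. So there are no exceptional dots.
-/

set_option autoImplicit false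

namespace Pool.Agent.Helper74.CO

open Finset

/-! ## Part A2. The covariance lemma -/

/-- both no-carry conditions from pairwise equidistribution -/
def Bump4 (K : ℕ) (κ η ε : ℝ) : Prop := ∀ (ι : Type) (X : Finset ι) (a b c d : ι → ℝ) (u v : ℝ),
  U01 X a → U01 X b → U01 X c → U01 X d → Eq2 X a b K κ → Eq2 X a c K κ → Eq2 X a d K κ →
  Eq2 X b c K κ → Eq2 X b d K κ → Eq2 X c d K κ →
  -ε ≤ u → u ≤ 1 + ε → -ε ≤ v → v ≤ 1 + ε →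
  η * #X ≤ #(X.filter (fun x => (0 ≤ a x + b x - u ∧ a x + b x - u < 1) ∧
    (0 ≤ c x + d x - v ∧ c x + d x - v < 1)))

/-- **POU** PROOF. `fw K s = K⁻² ∑_{j,j'<K} e((j-j')s)`. Sum over `s = t - m/M`, `m < M`: the inner sum
`∑_m e(-(j-j')m/M)` is `M` if `M ∣ j-j'`, i.e. `j = j'` (as `|j-j'| < K ≤ M`), and `0` otherwise. So the sum is
`K⁻² · K · M`. -/
def POU : Prop := ∀ (K M : ℕ) (t : ℝ), 1 ≤ K → K ≤ M →
  ∑ m ∈ range M, fw K (t - m / M) = M / K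

/-- **BOX2** [FEJ, AVG, POU] PROOF. It is enough to prove the upper bound `#cell ≤ (1/G² + ε') #X` for all cells and
every `ε' > 0`: the `G²` cells partition `X` (U01), so `#cell ≥ #X - (G²-1)(1/G² + ε')#X = #X/G² - (G²-1)ε'#X`.
Let `ρ > 0`, `K ≥ 1`, `M = K`. For `I = [i/G, (i+1)/G)` let `S_I` be the set of the `m < K` such that some
`m/K + n`, `n ∈ {-1, 0, 1}`, is in `[i/G - ρ, (i+1)/G + ρ]`; the integers `k` with `k/K` in this interval are at most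
`K(1/G + 2ρ) + 1` and each `m ∈ S_I` is the residue modulo `K` of such a `k`, so `#S_I ≤ K(1/G + 2ρ) + 1`. For `t ∈ I` and `m ∉ S_I`: `ρ ≤ |t - m/K| ≤ 1 - ρ`, so `fw K (t - m/K) ≤ 1/(2Kρ)²` (FEJ) and
by POU `∑_{m ∈ S_I} fw K (t - m/K) ≥ 1 - K/(2Kρ)² = 1 - 1/(4Kρ²) =: θ`. So for `x` in the cell `(i,j)`
`θ² ≤ ∑_{m ∈ S_I} ∑_{m' ∈ S_J} fw K (a x - m/K) fw K (c x - m'/K)`. Sum over all `x ∈ X` (AVG with `Kb = 1`, hypothesis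
`Eq2`): `θ² #cell ≤ #S_I #S_J (1/K² + κ) #X ≤ (1/G + 2ρ + 1/K)² (1 + κK²) #X`. Choose first `ρ` small, then `K` large, then
`κ = 1/K³`. -/
def BOX2 : Prop := ∀ (G : ℕ) (ε : ℝ), 1 ≤ G → 0 < ε → ∃ (K : ℕ) (κ : ℝ), 0 < κ ∧
  ∀ (ι : Type) (X : Finset ι) (a c : ι → ℝ), U01 X a → U01 X c → Eq2 X a c K κ →
    ∀ i j : ℕ, i < G → j < G →
      |(#(X.filter (fun x => ⌊(G : ℝ) * a x⌋₊ = i ∧ ⌊(G : ℝ) * c x⌋₊ = j)) : ℝ) -
        #X / (G : ℝ) ^ 2| ≤ ε * #X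

/-- **BUMP4** [BOX2] PROOF. `G = 10⁵`, `ε = 1/G`, `τ = 1/8`, `τ₀ = 1/100`; BOX2 with `ε_b = 1/(10⁷ G²)`. Write
`A = ⌊G a x⌋₊`, `B`, `C`, `D` in `{0, …, G-1}`, `S = A + B`, `S' = C + D`. For a function `F` of two of `A, B, C, D` with
`|F| ≤ 2`: `|∑_x F - #X avg F| ≤ 2·10⁻⁷ #X` (`avg` = average over `{0..G-1}²`). Let `u' = max 0 (min u 1)`, `v'` the same.
If `u'G + 1 ≤ S ≤ G - 3 + u'G` (call it `L(x)`) then `0 ≤ a x + b x - u < 1` (because `S/G ≤ a + b < (S+2)/G` and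
`|u - u'| ≤ 1/G`); `R(x)` the same for `S'`, `v'`. So the filter contains the `x` with `L` and `R`.
Counting pairs: `#{(A,B) : A + B < w + 1} ≤ (w+2)(w+3)/2`, the same for `2G-2-A-B`, so
`avg 1_L ≥ 1/2 + u'(1-u') - 4/G`.
CASE N: `u'(1-u') + v'(1-v') ≥ τ₀`. `1_L 1_R ≥ 1_L + 1_R - 1`, average `≥ τ₀ - 8/G`.
CASE C: otherwise; then `u'` is in `[0, 2τ₀)` or `(1-2τ₀, 1]`, same for `v'`. If `u' < 2τ₀` put `U = (G-1-S)/G`,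
`M₁ = {S < u'G + 1 or S = G-2}`; if `u' > 1-2τ₀` put `U = (S-(G-1))/G`, `M₁ = {S = G or S > G-3+u'G}`. In both cases
`U > 0` and not `M₁` imply `L`; `|U| ≤ 1`; `avg 1_{U>0} = 1/2 - 1/(2G)`;
`avg 1_{M₁} ≤ (2τ₀G+3)²/(2G²) + 1/G ≤ 4τ₀² + 10/G`; `avg 1_{|U|<τ} ≤ 2τ + 1/G`. The same with `V`, `M₂`. Put
`Φ = 1_{U>0} + 1_{V>0} - 1 + UV/2 + (τ²/2)(1 - 1_{|U|<τ} - 1_{|V|<τ}) - 2·1_{M₁} - 2·1_{M₂}`.
Claim `Φ ≤ 2·1_L 1_R`. On `M₁ ∪ M₂`: `Φ ≤ 1 + 1/2 + τ²/2 - 2 ≤ 0`. Off it, if `U > 0`, `V > 0`: `L`, `R` hold and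
`Φ ≤ 1 + 1/2 + τ²/2 ≤ 2`. If exactly one is `> 0`: the first three terms are `0`, `UV ≤ 0`, and `UV ≤ -τ²` if `|U|, |V| ≥ τ`,
while the bracket is `≤ 0` if one of `|U|, |V|` is `< τ`: `Φ ≤ 0`. If none: `Φ ≤ -1 + 1/2 + τ²/2 ≤ 0`. Sum:
`∑ UV = ± G⁻² ∑_x (A₀+B₀)(C₀+D₀)`, `A₀ = A - (G-1)/2` etc.; the four products have average `0` over pairs and
`|A₀C₀|/G² ≤ 1`, so `|∑ UV| ≤ 4·2·10⁻⁷ #X`. Hence
`2 #{L, R} ≥ ∑ Φ ≥ #X(-1/G + (τ²/2)(1 - 4τ - 2/G) - 4(4τ₀² + 10/G) - 10⁻⁵) ≥ #X/1000`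
(`(τ²/2)(1-4τ) = 1/256`, `16τ₀² = 1/625`). `η = 1/2000`, `K, κ` of BOX2. -/
def BUMP4 : Prop := ∃ (K : ℕ) (κ η ε : ℝ), 0 < κ ∧ 0 < η ∧ 0 < ε ∧ Bump4 K κ η ε

/-- **TRF** PROOF. Reindex the sums by the involution `M` of `X` (`Finset.sum_nbij'`). -/
def TRF : Prop := ∀ (ι : Type) (X : Finset ι) (M : ι → ι) (a b : ι → ℝ) (K : ℕ) (κ : ℝ),
  (∀ x ∈ X, M x ∈ X ∧ M (M x) = x) →
  (Eq2 X a b K κ → Eq2 X (fun x => a (M x)) (fun x => b (M x)) K κ) ∧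
  (Eq2 X a (fun x => b (M x)) K κ → Eq2 X (fun x => a (M x)) b K κ)

/-! ## Part W2 -/

/-- **WINV** PROOF. For `x ≠ 0, v, e`: `Mw e v x ≠ 0` (`x ≠ v`), `≠ e` (`x - v = x - e` would give `v = e`), `≠ v`
(`e(x-v) = v(x-e)` gives `x(e-v) = 0`); `M(M x) = x` by computation (`y(x-e) = e(x-v)` is symmetric in `x, y`:
`xy - e(x+y) + ev = 0`). -/
def WINV : Prop := ∀ (F : Type) [Field F] [Fintype F] [DecidableEq F] (e v : F), e ≠ 0 → v ≠ e →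
  ∀ x ∈ Xw e v, Mw e v x ∈ Xw e v ∧ Mw e v (Mw e v x) = x

/-- **WAB** [LIM, TP, CHM] PROOF. Up to a constant of norm one `∑_{x∈X} χ^j(x) χ^k(x-v) χ^(-k)(x-e)`. `k ≠ 0`: extend to all
`x` (the missing terms are `0`), TP with `v ≠ e`. `k = 0`: `j ≠ 0`, `∑ χ^j = 0`, at most two missing terms. -/
def WAB : Prop := ∀ (K : ℕ) (κ : ℝ), 0 < κ → ∃ q₀ : ℕ, ∀ (p : ℕ) [Fact p.Prime] (g c e v : ZMod p),
  q₀ ≤ p → Gen g → c ≠ 0 → e ≠ 0 → v ≠ e →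
  Eq2 (Xw e v) (aw p g c) (fun x => aw p g c (Mw e v x)) K κ

/-- **WAC** [LIM, GAU, CHM, CHA] PROOF. `∑_{x∈X} χ^j(x) ψ_l(x)`, at most three missing terms: `l ≠ 0` GAU, `l = 0`:
`∑ χ^j = 0`. -/
def WAC : Prop := ∀ (K : ℕ) (κ : ℝ), 0 < κ → ∃ q₀ : ℕ, ∀ (p : ℕ) [Fact p.Prime] (g c e v : ZMod p),
  q₀ ≤ p → Gen g → c ≠ 0 → e ≠ 0 → Eq2 (Xw e v) (aw p g c) (cw p) K κ

/-- **WAD** [LIM, MIX, CHM, CHA] PROOF. `∑_{x∈X} χ^j(x) ψ_l(M x)`, `M x = e + e(e-v)/(x-e)`. `l = 0`: `∑ χ^j = 0`, two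
missing terms. `l ≠ 0`: over all `x ≠ e` put `x = e + 1/w`, `w ≠ 0`: up to a constant
`∑_{w≠0} χ^j((ew+1)/w) ψ_1(b w)`, `b = l e(e-v) ≠ 0`. `j ≠ 0`: `χ^(-j)(w) χ^j(ew+1) ψ_1(bw)`, up to a constant
`χ^(-j)(w) χ^j(w - (-1/e)) ψ_1(bw)`: MIX with `t = -1/e` (the term `w = 0` vanishes) and the additive character
`w ↦ ψ_1(bw)` (`AddChar.mulShift`, nontrivial). `j = 0`: the sum over `w ≠ 0`, `w ≠ -1/e` (that is `x ≠ 0`) of `ψ_1(bw)` is at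
most `2`. Two missing terms. -/
def WAD : Prop := ∀ (K : ℕ) (κ : ℝ), 0 < κ → ∃ q₀ : ℕ, ∀ (p : ℕ) [Fact p.Prime] (g c e v : ZMod p),
  q₀ ≤ p → Gen g → c ≠ 0 → e ≠ 0 → v ≠ e →
  Eq2 (Xw e v) (aw p g c) (fun x => cw p (Mw e v x)) K κ

/-- **WALL** [GOODW, BUMP4, WSOL, TRF, WINV, WAB, WAC, WAD, WP, IND] PROOF. All fields except `exc` come from GOODW (with
`η` replaced by a smaller one). `exc` with `C = 0`: let `P = (u,v)` be in the box, `P ∉ Wt`, `e = c g^u ≠ v̄`. `Bump4` for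
`X = Xw e v̄`, `a = aw`, `b = aw ∘ M`, `c = cw`, `d = cw ∘ M`: the pairs `(a,b)` WAB, `(a,c)` WAC, `(a,d)` WAD,
`(b,c)` TRF from `(a,d)`, `(b,d)` TRF from `(a,c)`, `(c,d)` WP; `u/(p-1)`, `v/p ∈ [-ε₀, 1+ε₀]` if `ε = ε₀/2` and `p` is large.
So `#sols ≥ η₀(p-3) ≥ η(p-1)` by WSOL. So no `P` violates, `S` is empty. -/
def WALL : Prop := ∃ (η ε : ℝ) (N : ℕ), 0 < η ∧ 0 < ε ∧ ∀ (p : ℕ) [Fact p.Prime] (g c : ZMod p),
  N ≤ p → Gen g → c ≠ 0 → Good (Wa p g c) (Wt p g c) (p - 1) (p - 1) η ε 0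

/-! ## Part G2 -/

/-- **GINV** PROOF. `y = Mg e f x` is `(e+f)xy - e(x+y) + e(1-f) = 0`, symmetric in `x, y`. For `x` not in
`{0, 1, 1-f, e}` and `(e+f)x ≠ e`: `y ≠ 0` (`x ≠ 1-f`); `1 - y = f(x-e)/((e+f)x-e) ≠ 0`; `y ≠ 1-f` (else `x = 0` by the
symmetric equation: `x((e+f)(1-f) - e) = 0` and `(e+f)(1-f) - e = f(1-e-f) ≠ 0`); `y ≠ e` (else
`x((e+f)e - e) = e(e - 1 + f)`, `x = 1`); `(e+f)y ≠ e` (else `x((e+f)y - e) = e(y-1+f)` gives `y = 1-f`, excluded). So the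
equation `x((e+f)y-e) = e(y-1+f)` gives `Mg e f y = x`. -/
def GINV : Prop := ∀ (F : Type) [Field F] [Fintype F] [DecidableEq F] (e f : F), e ≠ 0 → f ≠ 0 →
  e + f ≠ 1 → ∀ x ∈ Xg e f, Mg e f x ∈ Xg e f ∧ Mg e f (Mg e f x) = x

/-- **GAB** [LIM, TP, JAC, CHM] PROOF. `s = 1-f`, `∑_{x∈X} χ^j(x) χ^k(M x)`, `M x = e(x-s)/((e+f)x-e)`. `k = 0`:
`∑ χ^j = 0`, at most `4` missing terms. `k ≠ 0`, `e+f ≠ 0`, `t = e/(e+f) ≠ s`: up to a constant and at most two missing terms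
(`x = 1`, `x = e`) `∑ χ^j(x) χ^k(x-s) χ^(-k)(x-t)`: TP. `e+f = 0`: `M x = -(x-s)`, `s ≠ 0` (else `f = 1`, `e = -1`):
`∑ χ^j(x) χ^k(x-s)`: JAC. -/
def GAB : Prop := ∀ (K : ℕ) (κ : ℝ), 0 < κ → ∃ q₀ : ℕ, ∀ (F : Type) [Field F] [Fintype F]
  [DecidableEq F] (α e f : F), q₀ ≤ Fintype.card F → Gen α → e ≠ 0 → f ≠ 0 → e + f ≠ 1 →
  ¬ (e = -1 ∧ f = 1) → Eq2 (Xg e f) (ag α) (fun x => ag α (Mg e f x)) K κ

/-- **GAC** [LIM, JAC, CHM] PROOF. `X` is `F` without at most five points; `∑ χ^j(x) ω^l(1-x)`, `(j,l) ≠ 0`: `l ≠ 0` JAC,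
`l = 0`: `∑ χ^j = 0`. (Same as GJ without the condition `e + f = 0`.) -/
def GAC : Prop := ∀ (K : ℕ) (κ : ℝ), 0 < κ → ∃ q₀ : ℕ, ∀ (F : Type) [Field F] [Fintype F]
  [DecidableEq F] (α β e f : F), q₀ ≤ Fintype.card F → Gen α → Gen β →
  Eq2 (Xg e f) (ag α) (cg β) K κ

/-- **GAD** [LIM, TP, JAC, CHM] PROOF. `1 - M x = f(x-e)/((e+f)x-e)`, `∑_{x∈X} χ^j(x) ω^l(1-M x)`. `l = 0`: `∑ χ^j = 0`.
`l ≠ 0`, `e+f ≠ 0`, `t = e/(e+f)`; `e ≠ t` since `e+f ≠ 1`: `∑ χ^j(x) ω^l(x-e) ω^(-l)(x-t)`, at most two missing terms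
(`x = 1`, `x = 1-f`): TP. `e+f = 0`: `1 - M x = x - e`: `∑ χ^j(x) ω^l(x-e)`: JAC (`e ≠ 0`). -/
def GAD : Prop := ∀ (K : ℕ) (κ : ℝ), 0 < κ → ∃ q₀ : ℕ, ∀ (F : Type) [Field F] [Fintype F]
  [DecidableEq F] (α β e f : F), q₀ ≤ Fintype.card F → Gen α → Gen β → e ≠ 0 → f ≠ 0 → e + f ≠ 1 →
  Eq2 (Xg e f) (ag α) (fun x => cg β (Mg e f x)) K κ

/-- **GSP** [BUMPS, GSOL, GP, GAB, GJ, GLI, IND] (special dots). PROOF. `K, κ, η₀, ε₀` of BUMPS, `ε ≤ ε₀/2`, `ε ≤ 1/10`.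
Characteristic not `2`: (1) `α^u = -1`, `β^v = 1`: `u ≡ (q-1)/2` modulo `q-1`, in the box `u/(q-1) = 1/2` (GLI), the first
condition of GSOL always holds (`Mg (-1) 1 x = -x`, GLI); `v/(q-1) ∈ {0, 1}`; `Bump2` for `cg`, `cg ∘ M` (GP). (2)
`α^u = 1`, `β^v = -1`: `Mg 1 (-1) x = 2 - x`, `1 - M x = -(1-x)`; `v/(q-1) = 1/2` and the second condition always holds by GLI for
`β` and `1-x`; `u/(q-1) ∈ {0,1}` and `Bump2` for `ag`, `ag ∘ M` (GAB). Characteristic `2`: `α^u = β^v = 1`,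
`u, v ∈ {0, q-1}`, `Mg 1 1 x = x`, `Bump3` (GJ). Then GSOL: `#sols ≥ η₀(q-5)`. -/
def GSP : Prop := ∃ (η ε : ℝ) (N : ℕ), 0 < η ∧ 0 < ε ∧ ∀ (F : Type) [Field F] [Fintype F] (α β : F)
  (u v : ℤ), N ≤ Fintype.card F → Gen α → Gen β →
  (α ^ u = -1 ∧ β ^ v = 1) ∨ (α ^ u = 1 ∧ β ^ v = -1) →
  -ε * Fintype.card F ≤ u → (u : ℝ) ≤ (1 + ε) * Fintype.card F →
  -ε * Fintype.card F ≤ v → (v : ℝ) ≤ (1 + ε) * Fintype.card F →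
  η * Fintype.card F ≤ #(sols (Ga α β) (u, v))

/-- **GALL** [GOODG, GSP, BUMP4, GSOL, TRF, GINV, GAB, GAC, GAD, GP, IND] PROOF. All fields except `exc` come from GOODG.
`exc` with `C = 0`: `P = (u,v)` in the box, `P ∉ Gt`, `e = α^u`, `f = β^v`, `e + f ≠ 1`. If `(e,f)` is `(-1,1)` or
`(1,-1)`: GSP. Otherwise `Bump4` for `X = Xg e f`, `a = ag α`, `b = a ∘ M`, `c = cg β`, `d = c ∘ M`: `(a,b)` GAB, `(a,c)` GAC,
`(a,d)` GAD, `(b,c)` and `(b,d)` by TRF and GINV, `(c,d)` GP; then GSOL, `#sols ≥ η₀(q-5)`. -/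
def GALL : Prop := ∃ (η ε : ℝ) (N : ℕ), 0 < η ∧ 0 < ε ∧ ∀ (F : Type) [Field F] [Fintype F]
  (α β : F), N ≤ Fintype.card F → Gen α → Gen β →
  Good (Ga α β) (Gt α β) (Fintype.card F - 2) (Fintype.card F - 1) η ε 0

/-! ## Part F2 -/

/-- stronger conclusion: all dots are in `T` -/
def Concl2 (A : Finset (ℤ × ℤ)) (T : Set (ℤ × ℤ)) (m : ℕ) (δ : ℝ) (C : ℕ) : Prop :=
  ∀ (n : ℕ) (f : Equiv.Perm (Fin n)) (s t : ℤ), IsCostas f → 4 * n ≤ 5 * m →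
    (1 - δ) * m ≤ #(A ∩ dots f s t) →
    m ≤ n + C ∧ n ≤ m ∧ ∀ P ∈ dots f s t, P ∈ T

/-- **ABS2** [KILL] PROOF. As ABS (Pool/Agent/Helper39/CO/ABS.lean), with `C = 0`: the set of the dots not in `T` has at
most `0` elements. -/
def ABS2 : Prop := ∀ (A : Finset (ℤ × ℤ)) (T : Set (ℤ × ℤ)) (m m₁ : ℕ) (η ε δ : ℝ) (C' : ℕ),
  1 ≤ m → Good A T m m₁ η ε 0 → Down T m δ 0 C' → 0 < δ → δ ≤ ε → 4 * δ < η → δ ≤ 1 / 20 →
  Concl2 A T m δ C'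

/-- **DW2** [DOWNW, IND] PROOF. By DOWNW for `C = 0`: `h = p - 1 - n ≤ C'`; let `p > 4(C'+1)²`. Suppose `h ≥ 3`. All dots
`(i, r)` of the permutation satisfy `c g^i = r`. Let `R` = classes of the rows `t, …, t+n-1`, `G'` = the elements `c g^i`,
`s ≤ i < s+n`; both have `n` elements and `G' ⊆ R`, so `G' = R`; `0 ∉ R`. The complement of `R` consists of the classes of
`t+n, …, t+p-1` (`h + 1` consecutive integers), one of which is divisible by `p`; so it is the set of the classes of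
`-a, …, b`, `a + b = h`. The complement of `G'` is `{0}` and `c g^i`, `s+n ≤ i < s+n+h`. So there are nonzero integers
`y_0, …, y_(h-1)` in `[-a, b]`, each occurring once, with `y_i ≡ c g^(s+n+i)`. Then `y_(i+1)² ≡ y_i y_(i+2)` modulo `p` and
both sides are at most `h²` in absolute value, so they are equal. If `|y_0| = |y_1|` then all `|y_i|` are equal, but `h ≥ 3`
different integers are not. So `|y_i|` is strictly monotone, hence injective, and `1` and `-1` are not both taken: `a = 0` or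
`b = 0`. So `|y_i|` takes every value `1, …, h` in monotone order, and three consecutive ones `1, 2, 3` satisfy
`2² = 1·3`: contradiction. -/
def DW2 : Prop := ∃ (N : ℕ) (δ : ℝ), 0 < δ ∧ ∀ (p : ℕ) [Fact p.Prime] (g c : ZMod p),
  N ≤ p → Gen g → c ≠ 0 → Down (Wt p g c) (p - 1) δ 0 2

end Pool.Agent.Helper74.CO
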