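import Pool.Agent.Helper74.CO.Final
import Pool.Agent.Helper74.CO.Goals2

set_option autoImplicit false

namespace Pool.Agent.Helper74.CO

open Finset

theorem concl2_mono {A : Finset (ℤ × ℤ)} {T : Set (ℤ × ℤ)} {m : ℕ} {δ δ' : ℝ} {C C' : ℕ}
    (hδ : δ' ≤ δ) (hC : C ≤ C') (h : Concl2 A T m δ C) : Concl2 A T m δ' C' := by
  intro n f s t hf hn hn'
  have hm : (0 : ℝ) ≤ m := Nat.cast_nonneg _
  have := h n f s t hf hn (by nlinarith)
  exact ⟨by omega, this.2.1, this.2.2⟩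

theorem swap2 {A : Finset (ℤ × ℤ)} {T : Set (ℤ × ℤ)} {m : ℕ} {δ : ℝ} {C : ℕ}
    (h : Concl2 A T m δ C) : Concl2 (A.image Prod.swap) (Prod.swap ⁻¹' T) m δ C := by
  intro n f s t hf hn hn'
  have e1 : #(A.image Prod.swap ∩ dots f s t) = #(A ∩ dots f.symm t s) := by
    rw [← Finset.card_image_of_injective (A ∩ dots f.symm t s) Prod.swap_injective]
    congr 1
    ext P
    simp only [mem_inter, mem_image]
    constructor
    · rintro ⟨⟨Q, hQ, rfl⟩, hP⟩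
      refine ⟨Q, ⟨hQ, ?_⟩, rfl⟩
      rw [← mem_dots_symm, Prod.swap_swap] at hP
      exact hP
    · rintro ⟨Q, ⟨hQ, hQ'⟩, rfl⟩
      refine ⟨⟨Q, hQ, rfl⟩, ?_⟩
      rw [← mem_dots_symm, Prod.swap_swap]
      exact hQ'
  have h1 := h n f.symm t s (isCostas_symm hf) hn (by rw [← e1]; exact hn')
  refine ⟨h1.1, h1.2.1, ?_⟩
  intro P hP
  rw [Set.mem_preimage]
  exact h1.2.2 P.swap (mem_dots_symm.2 hP)

theorem concl2_set {A : Finset (ℤ × ℤ)} {T : Set (ℤ × ℤ)} {m : ℕ} {δ : ℝ} {C : ℕ}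
    (h : Concl2 A T m δ C) (n : ℕ) (f : Equiv.Perm (Fin n)) (s t : ℤ) (hf : IsCostas f)
    (hn : 4 * n ≤ 5 * m) (hA : (1 - δ) * m ≤ ((A : Set (ℤ × ℤ)) ∩ dotSet f s t).ncard) :
    dotSet f s t ⊆ T ∧ n ≤ m ∧ m ≤ n + C := by
  rw [← coe_dots, ← Finset.coe_inter, Set.ncard_coe_finset] at hA
  have := h n f s t hf hn hA
  refine ⟨?_, this.2.1, this.1⟩
  intro P hP
  rw [← coe_dots] at hP
  exact this.2.2 P (by simpa using hP)

theorem main2_of (hW : WALL) (hG : GALL) (dW : DW2) (dG : DOWNG) (hA : ABS2) :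
    ∃ (δ : ℝ) (C N : ℕ), 0 < δ ∧ ∀ (m : ℕ) (A T : Set (ℤ × ℤ)), N ≤ m → IsAlgebraic m A T →
      ∀ (n : ℕ) (f : Equiv.Perm (Fin n)) (s t : ℤ), IsCostas f → 4 * n ≤ 5 * m →
        (1 - δ) * m ≤ (A ∩ dotSet f s t).ncard →
        dotSet f s t ⊆ T ∧ n ≤ m ∧ m ≤ n + C ∧
          (IsWelch m A T ∨ IsWelch m (Prod.swap ⁻¹' A) (Prod.swap ⁻¹' T) → m ≤ n + 2) := by
  classical
  obtain ⟨η₁, ε₁, N₁, hη₁, hε₁, hW⟩ := hW
  obtain ⟨η₂, ε₂, N₂, hη₂, hε₂, hG⟩ := hG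
  obtain ⟨M₁, δ₁, hδ₁, dW⟩ := dW
  obtain ⟨D₂, M₂, δ₂, hδ₂, dG⟩ := dG 0
  set δ : ℝ := min (1 / 20) (min (min (η₁ / 5) (η₂ / 5)) (min (min ε₁ ε₂) (min δ₁ δ₂))) with hδ
  have h0 : 0 < δ := by positivity
  have l0 : δ ≤ 1 / 20 := min_le_left _ _
  have l1 : δ ≤ η₁ / 5 := (min_le_right _ _).trans ((min_le_left _ _).trans (min_le_left _ _))
  have l2 : δ ≤ η₂ / 5 := (min_le_right _ _).trans ((min_le_left _ _).trans (min_le_right _ _))
  have l3 : δ ≤ ε₁ := (min_le_right _ _).trans ((min_le_right _ _).trans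
    ((min_le_left _ _).trans (min_le_left _ _)))
  have l4 : δ ≤ ε₂ := (min_le_right _ _).trans ((min_le_right _ _).trans
    ((min_le_left _ _).trans (min_le_right _ _)))
  have l5 : δ ≤ δ₁ := (min_le_right _ _).trans ((min_le_right _ _).trans
    ((min_le_right _ _).trans (min_le_left _ _)))
  have l6 : δ ≤ δ₂ := (min_le_right _ _).trans ((min_le_right _ _).trans
    ((min_le_right _ _).trans (min_le_right _ _)))
  have cW : ∀ (p : ℕ) [Fact p.Prime] (g c : ZMod p), max 2 (max N₁ M₁) ≤ p → Gen g → c ≠ 0 →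
      Concl2 (Wa p g c) (Wt p g c) (p - 1) δ 2 := by
    intro p _ g c hp hg hc
    have a1 := hW p g c (by omega) hg hc
    have a2 := (t_MONO (Wa p g c) (Wt p g c) (p - 1) δ₁ δ 2 2 0 l5 le_rfl).1
      (dW p g c (by omega) hg hc)
    exact hA _ _ _ _ η₁ ε₁ δ 2 (by omega) a1 a2 h0 l3 (by linarith) l0
  have cG : ∀ (F : Type) [Field F] [Fintype F] (α β : F), max 3 (max N₂ M₂) ≤ Fintype.card F →
      Gen α → Gen β → Concl2 (Ga α β) (Gt α β) (Fintype.card F - 2) δ D₂ := by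
    intro F _ _ α β hp hα hβ
    have a1 := hG F α β (by omega) hα hβ
    have a2 := (t_MONO (Ga α β) (Gt α β) (Fintype.card F - 2) δ₂ δ D₂ D₂ 0 l6 le_rfl).1
      (dG F α β (by omega) hα hβ)
    exact hA _ _ _ _ η₂ ε₂ δ D₂ (by omega) a1 a2 h0 l4 (by linarith) l0
  have wSet : ∀ (m : ℕ) (A T : Set (ℤ × ℤ)), max 2 (max N₁ M₁) ≤ m + 1 → IsWelch m A T →
      ∃ A' : Finset (ℤ × ℤ), (A' : Set (ℤ × ℤ)) = A ∧ Concl2 A' T m δ 2 := by
    rintro m A T hm ⟨p, hp, g, c, hg, hc, rfl, rfl, rfl⟩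
    refine ⟨Wa (m + 1) g c, ?_, ?_⟩
    · ext P
      simp only [Wa, Wt, coe_filter, mem_product, mem_Icc, Set.mem_ofPred_eq]
      push_cast
      constructor
      · rintro ⟨⟨⟨a, b⟩, c, d⟩, e⟩
        exact ⟨e, a, by omega, c, by omega⟩
      · rintro ⟨e, a, b, c, d⟩
        exact ⟨⟨⟨a, by omega⟩, c, by omega⟩, e⟩
    · have := cW (m + 1) g c hm hg hc
      simp only [Nat.add_sub_cancel] at this
      exact this
  have wMain : ∀ (m : ℕ) (A T : Set (ℤ × ℤ)), max 2 (max N₁ M₁) ≤ m + 1 →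
      (IsWelch m A T ∨ IsWelch m (Prod.swap ⁻¹' A) (Prod.swap ⁻¹' T)) →
      ∀ (n : ℕ) (f : Equiv.Perm (Fin n)) (s t : ℤ), IsCostas f → 4 * n ≤ 5 * m →
        (1 - δ) * m ≤ (A ∩ dotSet f s t).ncard →
        dotSet f s t ⊆ T ∧ n ≤ m ∧ m ≤ n + 2 := by
    intro m A T hm hAT n f s t hf hn hA'
    rcases hAT with h | h
    · obtain ⟨A', hA'', h'⟩ := wSet m A T (by omega) h
      rw [← hA''] at hA'
      exact concl2_set h' n f s t hf hn hA'
    · obtain ⟨A', hA'', h1⟩ := wSet m _ _ (by omega) h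
      have e1 : ((A'.image Prod.swap : Finset (ℤ × ℤ)) : Set (ℤ × ℤ)) = A := by
        rw [coe_image, hA'']
        ext ⟨x, y⟩
        simp
      have h' := swap2 h1
      have e2 : Prod.swap ⁻¹' (Prod.swap ⁻¹' T) = T := by
        ext P; simp
      rw [e2] at h'
      rw [← e1] at hA'
      exact concl2_set h' n f s t hf hn hA'
  refine ⟨δ, max 2 D₂, max (max 2 (max N₁ M₁)) (max 3 (max N₂ M₂)), h0, ?_⟩
  intro m A T hm hAT n f s t hf hn hA'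
  have hw := wMain m A T (by omega)
  rw [IsAlgebraic, ← or_assoc] at hAT
  rcases hAT with h | h
  · obtain ⟨h1, h2, h3⟩ := hw h n f s t hf hn hA'
    exact ⟨h1, h2, by omega, fun _ => h3⟩
  · have key : dotSet f s t ⊆ T ∧ n ≤ m ∧ m ≤ n + D₂ := by
      obtain ⟨F, hF, hF', α, β, hα, hβ, hq, rfl, rfl⟩ := h
      have h := cG F α β (by omega) hα hβ
      have e : Fintype.card F - 2 = m := by omega
      rw [e] at h
      have e1 : ((Ga α β : Finset (ℤ × ℤ)) : Set (ℤ × ℤ)) =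
          {P : ℤ × ℤ | P ∈ {P : ℤ × ℤ | α ^ P.1 + β ^ P.2 = 1} ∧ 1 ≤ P.1 ∧ P.1 ≤ m ∧ 1 ≤ P.2 ∧
            P.2 ≤ m} := by
        ext P
        simp only [Ga, Gt, coe_filter, mem_product, mem_Icc, Set.mem_ofPred_eq]
        rw [hq]
        push_cast
        constructor
        · rintro ⟨⟨⟨a, b⟩, c, d⟩, e⟩
          exact ⟨e, a, by omega, c, by omega⟩
        · rintro ⟨e, a, b, c, d⟩
          exact ⟨⟨⟨a, by omega⟩, c, by omega⟩, e⟩
      rw [← e1] at hA'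
      exact concl2_set h n f s t hf hn hA'
    exact ⟨key.1, key.2.1, by omega, fun hh => (hw hh n f s t hf hn hA').2.2⟩

end Pool.Agent.Helper74.CO
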