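import Pool.Agent.Helper74.CO.Goals2

/-!
# Project CO, stage 2, packet GALL: the Golomb arrays are good without exceptions
-/

set_option autoImplicit false

namespace Pool.Agent.Helper74.CO.GA

open Finset Pool.Agent.Helper74.CO

theorem card_Xg {F : Type} [Field F] [Fintype F] [DecidableEq F] (e f : F) (h : e ≠ 0) :
    (Fintype.card F : ℝ) - 5 ≤ #(Xg e f) := by
  have h1 : (univ : Finset F) \ {0, 1, 1 - f, e, e / (e + f)} ⊆ Xg e f := by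
    intro x hx
    simp only [mem_sdiff, mem_univ, true_and, mem_insert, mem_singleton, not_or] at hx
    simp only [Xg, mem_filter, mem_univ, true_and]
    obtain ⟨a, b, c, d, k⟩ := hx
    refine ⟨a, b, c, d, fun h6 => k ?_⟩
    have h7 : e + f ≠ 0 := fun h8 => h (by rw [← h6, h8, zero_mul])
    rw [eq_div_iff h7, mul_comm]
    exact h6
  have h2 := card_le_card h1
  have h3 := le_card_sdiff ({0, 1, 1 - f, e, e / (e + f)} : Finset F) (univ : Finset F)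
  rw [card_univ] at h3
  have h4 : #({0, 1, 1 - f, e, e / (e + f)} : Finset F) ≤ 5 := card_le_five
  have h5 : Fintype.card F ≤ #(Xg e f) + 5 := by omega
  have h6 : (Fintype.card F : ℝ) ≤ #(Xg e f) + 5 := by exact_mod_cast h5
  linarith

theorem key (hGSOL : GSOL) (hIND : IND) (hTRF : TRF) (hGINV : GINV) {K : ℕ} {κ η₀ ε₀ : ℝ}
    (hη : 0 < η₀) (B4 : Bump4 K κ η₀ ε₀) (F : Type) [Field F] [Fintype F] [DecidableEq F]
    (α β : F) (h10 : 10 ≤ Fintype.card F)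
    (hα : Gen α) (hβ : Gen β) (u v : ℤ) (hve : α ^ u + β ^ v ≠ 1)
    (hab : Eq2 (Xg (α ^ u) (β ^ v)) (ag α) (fun x => ag α (Mg (α ^ u) (β ^ v) x)) K κ)
    (hac : Eq2 (Xg (α ^ u) (β ^ v)) (ag α) (cg β) K κ)
    (had : Eq2 (Xg (α ^ u) (β ^ v)) (ag α) (fun x => cg β (Mg (α ^ u) (β ^ v) x)) K κ)
    (hcd : Eq2 (Xg (α ^ u) (β ^ v)) (cg β) (fun x => cg β (Mg (α ^ u) (β ^ v) x)) K κ)
    (hu1 : -ε₀ * ((Fintype.card F : ℝ) - 1) ≤ u) (hu2 : (u : ℝ) ≤ (1 + ε₀) * ((Fintype.card F : ℝ) - 1))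
    (hv1 : -ε₀ * ((Fintype.card F : ℝ) - 1) ≤ v) (hv2 : (v : ℝ) ≤ (1 + ε₀) * ((Fintype.card F : ℝ) - 1)) :
    η₀ / 2 * Fintype.card F ≤ #(sols (Ga α β) (u, v)) := by
  obtain ⟨α0, _, αind, _⟩ := hIND F α hα (by omega)
  obtain ⟨β0, _, βind, _⟩ := hIND F β hβ (by omega)
  have he : α ^ u ≠ 0 := zpow_ne_zero _ α0
  have hf : β ^ v ≠ 0 := zpow_ne_zero _ β0
  have h10R : (10 : ℝ) ≤ Fintype.card F := by exact_mod_cast h10
  have hp1 : (0 : ℝ) < (Fintype.card F : ℝ) - 1 := by linarith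
  have haw : ∀ y : F, y ≠ 0 → 0 ≤ ag α y ∧ ag α y < 1 := by
    intro y hy
    have h1 := (αind y hy).2
    have h2 : ((ind α y : ℕ) : ℝ) < (Fintype.card F : ℝ) - 1 := by exact_mod_cast h1
    unfold ag
    constructor
    · positivity
    · rw [div_lt_one hp1]
      exact h2
  have hcw : ∀ y : F, y ≠ 1 → 0 ≤ cg β y ∧ cg β y < 1 := by
    intro y hy
    have h1 := (βind (1 - y) (sub_ne_zero.2 (Ne.symm hy))).2
    have h2 : ((ind β (1 - y) : ℕ) : ℝ) < (Fintype.card F : ℝ) - 1 := by exact_mod_cast h1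
    unfold cg
    constructor
    · positivity
    · rw [div_lt_one hp1]
      exact h2
  have hinv := hGINV F (α ^ u) (β ^ v) he hf hve
  have hX : ∀ x ∈ Xg (α ^ u) (β ^ v), x ≠ 0 ∧ x ≠ 1 := by
    intro x hx
    simp only [Xg, mem_filter, mem_univ, true_and] at hx
    exact ⟨hx.1, hx.2.1⟩
  have hM : ∀ x ∈ Xg (α ^ u) (β ^ v), Mg (α ^ u) (β ^ v) x ≠ 0 ∧ Mg (α ^ u) (β ^ v) x ≠ 1 :=
    fun x hx => hX _ (hinv x hx).1
  have hbd : Eq2 (Xg (α ^ u) (β ^ v))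
      (fun x => ag α (Mg (α ^ u) (β ^ v) x))
      (fun x => cg β (Mg (α ^ u) (β ^ v) x)) K κ :=
    (hTRF F (Xg (α ^ u) (β ^ v)) (Mg (α ^ u) (β ^ v)) (ag α) (cg β) K κ hinv).1 hac
  have hbc : Eq2 (Xg (α ^ u) (β ^ v))
      (fun x => ag α (Mg (α ^ u) (β ^ v) x)) (cg β) K κ :=
    (hTRF F (Xg (α ^ u) (β ^ v)) (Mg (α ^ u) (β ^ v)) (ag α) (cg β) K κ hinv).2 had
  have h1 := B4 F (Xg (α ^ u) (β ^ v)) (ag α)
    (fun x => ag α (Mg (α ^ u) (β ^ v) x)) (cg β)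
    (fun x => cg β (Mg (α ^ u) (β ^ v) x)) (u / ((Fintype.card F : ℝ) - 1))
    (v / ((Fintype.card F : ℝ) - 1))
    (fun x hx => haw x (hX x hx).1) (fun x hx => haw _ (hM x hx).1)
    (fun x hx => hcw x (hX x hx).2)
    (fun x hx => hcw _ (hM x hx).2) hab hac had hbc hbd hcd
    (by rw [le_div_iff₀ hp1]; exact hu1) (by rw [div_le_iff₀ hp1]; exact hu2)
    (by rw [le_div_iff₀ hp1]; exact hv1) (by rw [div_le_iff₀ hp1]; exact hv2)
  have h2 := hGSOL F α β u v (by omega) hα hβ hve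
  have h3 : (#((Xg (α ^ u) (β ^ v)).filter (fun x =>
    (0 ≤ ag α x + ag α (Mg (α ^ u) (β ^ v) x) - u / ((Fintype.card F : ℝ) - 1) ∧
      ag α x + ag α (Mg (α ^ u) (β ^ v) x) - u / ((Fintype.card F : ℝ) - 1) < 1) ∧
    (0 ≤ cg β x + cg β (Mg (α ^ u) (β ^ v) x) - v / ((Fintype.card F : ℝ) - 1) ∧
      cg β x + cg β (Mg (α ^ u) (β ^ v) x) - v / ((Fintype.card F : ℝ) - 1) < 1))) : ℝ) ≤
      #(sols (Ga α β) (u, v)) := by exact_mod_cast h2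
  have h4 := card_Xg (α ^ u) (β ^ v) he
  have h6 : η₀ * ((Fintype.card F : ℝ) - 5) ≤ η₀ * #(Xg (α ^ u) (β ^ v)) :=
    mul_le_mul_of_nonneg_left h4 hη.le
  have h8 : η₀ / 2 * (Fintype.card F : ℝ) ≤ η₀ * ((Fintype.card F : ℝ) - 5) := by nlinarith
  exact h8.trans (h6.trans (h1.trans h3))

theorem t_GALL (hGOODG : GOODG) (hGSP : GSP) (hBUMP4 : BUMP4) (hGSOL : GSOL) (hTRF : TRF)
    (hGINV : GINV) (hGAB : GAB) (hGAC : GAC) (hGAD : GAD) (hGP : GP) (hIND : IND) : GALL := by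
  classical
  obtain ⟨K, κ, η₀, ε₀, hκ, hη, hε, B4⟩ := hBUMP4
  obtain ⟨η₁, ε₁, C₁, N₁, hη₁, hε₁, hG⟩ := hGOODG
  obtain ⟨η₂, ε₂, N₂, hη₂, hε₂, hS⟩ := hGSP
  obtain ⟨q1, hq1⟩ := hGAB K κ hκ
  obtain ⟨q2, hq2⟩ := hGAC K κ hκ
  obtain ⟨q3, hq3⟩ := hGAD K κ hκ
  obtain ⟨q4, hq4⟩ := hGP K κ hκ
  refine ⟨min η₁ (min (η₀ / 2) η₂), min ε₀ ε₂, N₁ + N₂ + q1 + q2 + q3 + q4 + 10,
    lt_min hη₁ (lt_min (by positivity) hη₂), lt_min hε hε₂, ?_⟩
  intro F _ _ α β hN hα hβ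
  have h10 : 10 ≤ Fintype.card F := by omega
  obtain ⟨α0, _, _, _⟩ := hIND F α hα (by omega)
  obtain ⟨β0, _, _, _⟩ := hIND F β hβ (by omega)
  obtain ⟨w0, w1, w2, w3, w4, w5, _⟩ := hG F α β (by omega) hα hβ
  have hcast : ((Fintype.card F - 2 : ℕ) : ℝ) = (Fintype.card F : ℝ) - 2 := by
    rw [Nat.cast_sub (by omega)]
    norm_num
  have h10R : (10 : ℝ) ≤ Fintype.card F := by exact_mod_cast h10
  have hm0 : (0 : ℝ) ≤ ((Fintype.card F - 2 : ℕ) : ℝ) := Nat.cast_nonneg _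
  refine ⟨w0, w1, w2, w3, w4, ?_, ?_⟩
  · intro u v hu1 hu2 hv
    exact (mul_le_mul_of_nonneg_right (min_le_left _ _) hm0).trans (w5 u v hu1 hu2 hv)
  · intro S hS'
    rw [Nat.le_zero, card_eq_zero]
    refine eq_empty_of_forall_notMem fun P hP => ?_
    obtain ⟨s1, s2, s3, s4, s5, s6⟩ := hS' P hP
    have hve : α ^ P.1 + β ^ P.2 ≠ 1 := fun h => s1 h
    have m1 : min ε₀ ε₂ ≤ ε₀ := min_le_left _ _
    have m2 : min ε₀ ε₂ ≤ ε₂ := min_le_right _ _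
    have m0 : 0 < min ε₀ ε₂ := lt_min hε hε₂
    rw [hcast] at s2 s3 s4 s5
    have hm : min η₁ (min (η₀ / 2) η₂) * ((Fintype.card F - 2 : ℕ) : ℝ) ≤
        min (η₀ / 2) η₂ * (Fintype.card F : ℝ) := by
      rw [hcast]
      have a1 : min η₁ (min (η₀ / 2) η₂) ≤ min (η₀ / 2) η₂ := min_le_right _ _
      have a2 : 0 < min (η₀ / 2) η₂ := lt_min (by positivity) hη₂
      have a3 : 0 < min η₁ (min (η₀ / 2) η₂) := lt_min hη₁ a2
      nlinarith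
    by_cases hsp : (α ^ P.1 = -1 ∧ β ^ P.2 = 1) ∨ (α ^ P.1 = 1 ∧ β ^ P.2 = -1)
    · have hk := hS F α β P.1 P.2 (by omega) hα hβ hsp (by nlinarith) (by nlinarith)
        (by nlinarith) (by nlinarith)
      have hk2 : min (η₀ / 2) η₂ * (Fintype.card F : ℝ) ≤ η₂ * (Fintype.card F : ℝ) :=
        mul_le_mul_of_nonneg_right (min_le_right _ _) (by positivity)
      exact absurd s6 (not_lt.2 (hm.trans (hk2.trans hk)))
    · rw [not_or] at hsp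
      have he := zpow_ne_zero P.1 α0
      have hf := zpow_ne_zero P.2 β0
      have hk := key hGSOL hIND hTRF hGINV hη B4 F α β h10 hα hβ P.1 P.2 hve
        (hq1 F α _ _ (by omega) hα he hf hve hsp.1)
        (hq2 F α β _ _ (by omega) hα hβ)
        (hq3 F α β _ _ (by omega) hα hβ he hf hve)
        (hq4 F β _ _ (by omega) hβ he hf hve hsp.2)
        (by nlinarith) (by nlinarith) (by nlinarith) (by nlinarith)
      have hk2 : min (η₀ / 2) η₂ * (Fintype.card F : ℝ) ≤ η₀ / 2 * (Fintype.card F : ℝ) :=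
        mul_le_mul_of_nonneg_right (min_le_left _ _) (by positivity)
      exact absurd s6 (not_lt.2 (hm.trans (hk2.trans hk)))

end Pool.Agent.Helper74.CO.GA
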