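import Pool.Agent.Helper74.CO.Goals

set_option autoImplicit false

namespace Pool.Agent.Helper74.CO

open Finset

theorem Eq3.mono {ι : Type} {X : Finset ι} {a b c : ι → ℝ} {K K' : ℕ} {κ κ' : ℝ}
    (h : Eq3 X a b c K' κ') (hK : K ≤ K') (hκ : κ' ≤ κ) : Eq3 X a b c K κ := by
  intro j k l hj hk hl h0
  have hKK : (K : ℤ) ≤ K' := by exact_mod_cast hK
  refine (h j k l (by omega) (by omega) (by omega) h0).trans ?_
  exact mul_le_mul_of_nonneg_right hκ (Nat.cast_nonneg _)

theorem Eq2.mono {ι : Type} {X : Finset ι} {a b : ι → ℝ} {K K' : ℕ} {κ κ' : ℝ}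
    (h : Eq2 X a b K' κ') (hK : K ≤ K') (hκ : κ' ≤ κ) : Eq2 X a b K κ := by
  intro j k hj hk h0
  have hKK : (K : ℤ) ≤ K' := by exact_mod_cast hK
  refine (h j k (by omega) (by omega) h0).trans ?_
  exact mul_le_mul_of_nonneg_right hκ (Nat.cast_nonneg _)

theorem Bump1.mono {K K' : ℕ} {κ κ' η η' ε ε' : ℝ} (h : Bump1 K κ η ε) (hK : K ≤ K')
    (hκ : κ' ≤ κ) (hη : η' ≤ η) (hε : ε' ≤ ε) : Bump1 K' κ' η' ε' := by
  intro ι X a b c d u v ha hb hc hd h3 h2 hu hu' hv hv'
  refine le_trans (mul_le_mul_of_nonneg_right hη (Nat.cast_nonneg _)) ?_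
  exact h ι X a b c d u v ha hb hc hd (h3.mono hK hκ) (h2.mono hK hκ) hu hu' (by linarith)
    (by linarith)

theorem Bump2.mono {K K' : ℕ} {κ κ' η η' ε ε' : ℝ} (h : Bump2 K κ η ε) (hK : K ≤ K')
    (hκ : κ' ≤ κ) (hη : η' ≤ η) (hε : ε' ≤ ε) : Bump2 K' κ' η' ε' := by
  intro ι X c d v hc hd h2 hv hv'
  refine le_trans (mul_le_mul_of_nonneg_right hη (Nat.cast_nonneg _)) ?_
  exact h ι X c d v hc hd (h2.mono hK hκ) (by linarith) (by linarith)

theorem Bump3.mono {K K' : ℕ} {κ κ' η η' : ℝ} (h : Bump3 K κ η) (hK : K ≤ K')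
    (hκ : κ' ≤ κ) (hη : η' ≤ η) : Bump3 K' κ' η' := by
  intro ι X a c u v ha hc h2 hu hv
  refine le_trans (mul_le_mul_of_nonneg_right hη (Nat.cast_nonneg _)) ?_
  exact h ι X a c u v ha hc (h2.mono hK hκ) hu hv

theorem t_BUMPS (h1 : BUMP1) (h2 : BUMP2) (h3 : BUMP3) : BUMPS := by
  obtain ⟨K1, κ1, η1, ε1, a1, b1, c1, h1⟩ := h1
  obtain ⟨K2, κ2, η2, ε2, a2, b2, c2, h2⟩ := h2
  obtain ⟨K3, κ3, η3, a3, b3, h3⟩ := h3
  refine ⟨max K1 (max K2 K3), min κ1 (min κ2 κ3), min η1 (min η2 η3), min (1 / 2) (min ε1 ε2),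
    by positivity, by positivity, by positivity, ?_, ?_, ?_, ?_⟩
  · exact lt_of_le_of_lt (min_le_left _ _) (by norm_num)
  · exact h1.mono (le_max_left _ _) (min_le_left _ _) (min_le_left _ _)
      ((min_le_right _ _).trans (min_le_left _ _))
  · exact h2.mono ((le_max_left _ _).trans (le_max_right _ _))
      ((min_le_right _ _).trans (min_le_left _ _)) ((min_le_right _ _).trans (min_le_left _ _))
      ((min_le_right _ _).trans (min_le_right _ _))
  · exact h3.mono ((le_max_right _ _).trans (le_max_right _ _))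
      ((min_le_right _ _).trans (min_le_right _ _)) ((min_le_right _ _).trans (min_le_right _ _))

theorem t_MONO : MONO := by
  intro A T m δ δ' C C' D hδ hC
  have hm : (0 : ℝ) ≤ m := Nat.cast_nonneg _
  constructor
  · intro h n f s t hn hn' hD
    have := h n f s t hn (by nlinarith) hD
    omega
  · intro h n f s t hf hn hn'
    have := h n f s t hf hn (by nlinarith)
    refine ⟨by omega, this.2.1, this.2.2.trans hC⟩

theorem isCostas_symm {n : ℕ} {f : Equiv.Perm (Fin n)} (hf : IsCostas f) : IsCostas f.symm := by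
  -- symmetric form of the Costas property
  have key : ∀ i j k l : Fin n, i ≠ j → ((f i : ℤ) - f j = (f k : ℤ) - f l) →
      ((i : ℤ) - j = (k : ℤ) - l) → i = k ∧ j = l := by
    intro i j k l hij h1 h2
    rcases lt_or_gt_of_ne hij with h | h
    · have hkl : k < l := by
        have : (i : ℤ) < j := by exact_mod_cast h
        have : (k : ℤ) < l := by linarith
        exact_mod_cast this
      have := hf j i l k h hkl (by linarith) (by linarith)
      exact ⟨this.2, this.1⟩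
    · have hkl : l < k := by
        have : (j : ℤ) < i := by exact_mod_cast h
        have : (l : ℤ) < k := by linarith
        exact_mod_cast this
      exact hf i j k l h hkl h1 h2
  intro i j k l hji hlk h1 h2
  have := key (f.symm i) (f.symm j) (f.symm k) (f.symm l)
    (fun h => (ne_of_gt hji) (f.symm.injective h)) (by simpa using h2) h1
  exact ⟨f.symm.injective this.1, f.symm.injective this.2⟩

theorem mem_dots {n : ℕ} {f : Equiv.Perm (Fin n)} {s t : ℤ} {P : ℤ × ℤ} :
    P ∈ dots f s t ↔ ∃ i : Fin n, ((i : ℤ) + s, ((f i : Fin n) : ℤ) + t) = P := by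
  simp [dots]

theorem mem_dots_symm {n : ℕ} {f : Equiv.Perm (Fin n)} {s t : ℤ} {P : ℤ × ℤ} :
    P.swap ∈ dots f.symm t s ↔ P ∈ dots f s t := by
  rw [mem_dots, mem_dots]
  constructor
  · rintro ⟨i, hi⟩
    refine ⟨f.symm i, ?_⟩
    have h1 := congrArg Prod.fst hi
    have h2 := congrArg Prod.snd hi
    simp only [Prod.fst_swap, Prod.snd_swap] at h1 h2
    ext
    · exact h2
    · simpa using h1
  · rintro ⟨i, hi⟩
    refine ⟨f i, ?_⟩
    have h1 := congrArg Prod.fst hi
    have h2 := congrArg Prod.snd hi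
    simp only at h1 h2
    ext
    · simpa using h2
    · simpa using h1

theorem t_SWAP : SWAP := by
  intro A T m δ C h n f s t hf hn hn'
  have e1 : #(A.image Prod.swap ∩ dots f s t) = #(A ∩ dots f.symm t s) := by
    rw [← Finset.card_image_of_injective (A ∩ dots f.symm t s) Prod.swap_injective]
    congr 1
    ext P
    simp only [mem_inter, mem_image]
    constructor
    · rintro ⟨⟨Q, hQ, rfl⟩, hP⟩
      refine ⟨Q, ⟨hQ, ?_⟩, rfl⟩
      rw [← mem_dots_symm, Prod.swap_swap] at hP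
      exact hP
    · rintro ⟨Q, ⟨hQ, hQ'⟩, rfl⟩
      refine ⟨⟨Q, hQ, rfl⟩, ?_⟩
      rw [← mem_dots_symm, Prod.swap_swap]
      exact hQ'
  have h1 := h n f.symm t s (isCostas_symm hf) hn (by rw [← e1]; exact hn')
  refine ⟨h1.1, h1.2.1, le_trans (le_of_eq ?_) h1.2.2⟩
  classical
  rw [← Finset.card_image_of_injective _ (Prod.swap_injective (α := ℤ) (β := ℤ))]
  congr 1
  ext P
  simp only [mem_filter, mem_image, Set.mem_preimage]
  constructor
  · rintro ⟨Q, ⟨hQ, hQ'⟩, rfl⟩
    refine ⟨?_, hQ'⟩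
    rw [mem_dots_symm]
    exact hQ
  · rintro ⟨hP, hP'⟩
    refine ⟨P.swap, ⟨?_, ?_⟩, Prod.swap_swap _⟩
    · rw [← mem_dots_symm, Prod.swap_swap]; exact hP
    · rw [Prod.swap_swap]; exact hP'

theorem t_GOODG (h1 : GPAT) (h2 : GBL) (h3 : GEX) : GOODG := by
  obtain ⟨η, N, hη, h2⟩ := h2
  obtain ⟨η', ε, C, N', hη', hε, h3⟩ := h3
  refine ⟨min η η', ε, C, max 3 (max N N'), by positivity, hε, ?_⟩
  intro F _ _ α β hN hα hβ
  obtain ⟨p1, p2, p3, p4⟩ := h1 F α β (by omega) hα hβ
  have hq : 3 ≤ Fintype.card F := by omega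
  have hq' : ((Fintype.card F - 2 : ℕ) : ℝ) = (Fintype.card F : ℝ) - 2 := by
    rw [Nat.cast_sub (by omega)]; norm_num
  have hq1 : ((Fintype.card F - 1 : ℕ) : ℝ) = (Fintype.card F : ℝ) - 1 := by
    rw [Nat.cast_sub (by omega)]; norm_num
  have hq3 : (3 : ℝ) ≤ Fintype.card F := by exact_mod_cast hq
  refine ⟨Or.inr (by omega), p1, p2, p3, p4, ?_, ?_⟩
  · intro u v hu hu' hv
    rw [hq1] at hu hu'
    have hv' : v = 0 ∨ v = Fintype.card F - 1 := by
      rcases hv with h | h
      · exact Or.inl h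
      · right
        rw [h, Nat.cast_sub (by omega)]; push_cast; ring
    have := h2 F α β u v (by omega) hα hβ hu hu' hv'
    refine le_trans ?_ this
    rw [hq']
    have : min η η' ≤ η := min_le_left _ _
    have h0 : 0 < min η η' := by positivity
    nlinarith
  · intro S hS
    refine h3 F α β S (by omega) hα hβ ?_
    intro P hP
    obtain ⟨a, b, c, d, e, f⟩ := hS P hP
    rw [hq'] at b c d e f
    have : min η η' ≤ η' := min_le_right _ _
    have h0 : 0 < min η η' := by positivity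
    refine ⟨a, by nlinarith, by nlinarith, by nlinarith, by nlinarith, lt_of_lt_of_le f ?_⟩
    nlinarith

end Pool.Agent.Helper74.CO
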